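import Pool.Agent.Q149.DB.Rec

/-!
# Complex conjugation of characters and of blocks
-/

set_option autoImplicit false
set_option linter.unusedSectionVars false

open scoped BigOperators Classical

noncomputable section

namespace Pool.Agent.Q149.DB

open Pool.Agent.Helper884.IC Pool.Agent.Q90.WR
open Pool.Agent.Y63.NV (centralValue IsClassFun IsBlock conv)
open Pool.Agent.Y63.AWC (IsIrreducibleCharacter)
open Pool.Agent.Y930.NV (Cf ind Cf_ind Cf_expand centralValue_eq R om)
open Pool.Agent.Q149.WB (sq)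

variable {F : Type} [Field F] (red : integralClosure ℤ ℂ →+* F)

section chars

variable {K : Type} [Group K] [Fintype K]

theorem B_inv (θ ψ : K → ℂ) : B (fun g => θ g⁻¹) (fun g => ψ g⁻¹) = B ψ θ := by
  unfold B
  congr 1
  refine Finset.sum_congr rfl fun g _ => ?_
  simp only [inv_inv]
  ring

/-- the dual of an irreducible character -/
theorem irr_inv {χ : K → ℂ} (h : IsIrrChar χ) : IsIrrChar (fun g => χ g⁻¹) := by
  refine irr_of_norm ?_ ?_ ?_ ?_
  · intro a c
    have := h.isClass a⁻¹ c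
    rw [show c * a⁻¹ * c⁻¹ = (c * a * c⁻¹)⁻¹ by group] at this
    exact this
  · intro ψ hψ
    obtain ⟨V, _, _, _, ρ, _, rfl⟩ := id h
    obtain ⟨W, _, _, _, σ, _, rfl⟩ := hψ
    obtain ⟨n, hn⟩ := B_nat ρ.dual σ
    refine ⟨n, ?_⟩
    rw [Int.cast_natCast, ← hn]
    congr 1
    funext g
    exact (Representation.char_dual ρ g).symm
  · rw [B_inv, B_irr h h, if_pos rfl]
  · obtain ⟨m, -, hm⟩ := deg_pos h
    exact ⟨m, by simpa using hm⟩

/-- the values at inverse elements are the complex conjugates -/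
theorem char_conj {χ : K → ℂ} (h : IsIrrChar χ) (g : K) : (starRingEnd ℂ) (χ g) = χ g⁻¹ := by
  let σ : ℂ ≃+* ℂ := starRingAut
  have hσ : ∀ z : ℂ, σ z = (starRingEnd ℂ) z := fun _ => rfl
  have h1 : IsIrrChar (fun g => σ ((fun g => χ g⁻¹) g)) := irr_gal σ (irr_inv h)
  have h2 := B_irr h h1
  have h3 : B χ (fun g => σ ((fun g => χ g⁻¹) g)) ≠ 0 := by
    unfold B
    refine mul_ne_zero (inv_ne_zero cardG_ne) ?_
    have h4 : ∑ x : K, χ x * σ ((fun g => χ g⁻¹) x⁻¹) = ((∑ x : K, Complex.normSq (χ x) : ℝ) : ℂ) := by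
      push_cast
      refine Finset.sum_congr rfl fun x _ => ?_
      change χ x * σ (χ x⁻¹⁻¹) = _
      rw [inv_inv, hσ, Complex.mul_conj]
    rw [h4]
    obtain ⟨m, hm0, hm⟩ := deg_pos h
    have h5 : 0 < ∑ x : K, Complex.normSq (χ x) :=
      Finset.sum_pos' (fun x _ => Complex.normSq_nonneg _) ⟨1, Finset.mem_univ _, by
        rw [Complex.normSq_pos, hm]
        exact_mod_cast hm0.ne'⟩
    exact_mod_cast h5.ne'
  rw [h2] at h3
  have h6 : χ = fun g => σ ((fun g => χ g⁻¹) g) := by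
    by_contra hne
    rw [if_neg hne] at h3
    exact h3 rfl
  have h7 := congrFun h6 g
  simp only [hσ] at h7
  rw [h7, Complex.conj_conj]

theorem real_iff {χ : K → ℂ} (h : IsIrrChar χ) :
    (fun g => χ g⁻¹) = χ ↔ ∀ g, (χ g).im = 0 := by
  constructor
  · intro e g
    rw [← Complex.conj_eq_iff_im, char_conj h]
    exact congrFun e g
  · intro e
    funext g
    rw [← char_conj h]
    exact Complex.conj_eq_iff_im.2 (e g)

end chars

/-- the function `x ↦ f(x⁻¹)` -/
def st {G : Type} [Group G] (f : G → F) : G → F := fun x => f x⁻¹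

theorem st_class {G : Type} [Group G] {f : G → F} (hf : IsClassFun f) : IsClassFun (st f) := by
  intro g x
  unfold st
  rw [show (g * x * g⁻¹)⁻¹ = g * x⁻¹ * g⁻¹ by group, hf]

theorem st_st {G : Type} [Group G] (f : G → F) : st (st f) = f := by
  funext x
  unfold st
  rw [inv_inv]

theorem st_sq {G : Type} [Group G] {z : G → F} (h : st z = z) :
    st (sq z : Wr G → F) = (sq z : Wr G → F) := by
  have h1 : ∀ a, z a⁻¹ = z a := fun a => congrFun h a
  funext x
  obtain ⟨a, b, s⟩ := x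
  cases s
  · change z a⁻¹ * z b⁻¹ = z a * z b
    rw [h1, h1]
  · rfl

theorem cv_inv {K : Type} [Group K] [Fintype K] {χ : K → ℂ} (h : IsIrreducibleCharacter χ)
    {f : K → F} (hf : IsClassFun f) :
    centralValue red (fun g => χ g⁻¹) f = centralValue red χ (st f) := by
  have h1 := Pool.Agent.Q149.WB.centralValue_comb red h
    (Finset.univ : Finset (ConjClasses K)) (fun C => f C.out) (fun C x => ind ℤ C x⁻¹)
    (fun C _ => by
      intro g x
      change ind ℤ C (g * x * g⁻¹)⁻¹ = ind ℤ C x⁻¹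
      rw [show (g * x * g⁻¹)⁻¹ = g * x⁻¹ * g⁻¹ by group]
      exact Cf_ind ℤ C g x⁻¹) (st f) (by
      intro x
      unfold st
      rw [Cf_expand (show Cf f from hf) x⁻¹]
      refine Finset.sum_congr rfl fun C _ => ?_
      rw [Pool.Agent.Q149.WB.ind_castF])
  rw [h1, centralValue_eq red (irr_inv h)]
  refine Finset.sum_congr rfl fun C _ => ?_
  congr 1
  unfold R om
  congr 2
  · refine Fintype.sum_equiv (Equiv.inv K) _ _ fun g => ?_
    simp
  · simp

/-! ### involutions -/

section invol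

variable {K : Type} [Group K] [Fintype K]

/-- for a set of irreducible characters closed under complex conjugation -/
theorem card_real_mod (Q : (K → ℂ) → Prop)
    (hQ : ∀ χ, IsIrreducibleCharacter χ → Q χ → Q (fun g => χ g⁻¹)) :
    Nat.card {χ : K → ℂ // IsIrreducibleCharacter χ ∧ Q χ} ≡
      Nat.card {χ : K → ℂ // IsIrreducibleCharacter χ ∧ Q χ ∧ ∀ g, (χ g).im = 0} [MOD 2] := by
  have hfin : Finite {χ : K → ℂ // IsIrreducibleCharacter χ ∧ Q χ} := by
    have : Finite {χ : K → ℂ // χ ∈ Irr K} := inferInstance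
    exact Finite.of_injective
      (fun χ : {χ : K → ℂ // IsIrreducibleCharacter χ ∧ Q χ} =>
        (⟨χ.1, mem_Irr.mpr χ.2.1⟩ : {χ : K → ℂ // χ ∈ Irr K}))
      (fun a b hab => Subtype.ext (congrArg (fun z : {χ : K → ℂ // χ ∈ Irr K} => z.1) hab))
  let f : {χ : K → ℂ // IsIrreducibleCharacter χ ∧ Q χ} →
      {χ : K → ℂ // IsIrreducibleCharacter χ ∧ Q χ} := fun χ =>
    ⟨fun g => χ.1 g⁻¹, irr_inv χ.2.1, hQ χ.1 χ.2.1 χ.2.2⟩
  have h := invol_mod f (by
    intro χ
    apply Subtype.ext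
    funext g
    change χ.1 g⁻¹⁻¹ = χ.1 g
    rw [inv_inv])
  refine h.trans ?_
  rw [show Nat.card {x // f x = x} = Nat.card {χ : K → ℂ // IsIrreducibleCharacter χ ∧ Q χ ∧
    ∀ g, (χ g).im = 0} from Nat.card_congr
      { toFun := fun x => ⟨x.1.1, x.1.2.1, x.1.2.2,
          (real_iff x.1.2.1).1 (congrArg Subtype.val x.2)⟩
        invFun := fun y => ⟨⟨y.1, y.2.1, y.2.2.1⟩, Subtype.ext ((real_iff y.2.1).2 y.2.2.2)⟩
        left_inv := fun x => rfl
        right_inv := fun y => rfl }]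

/-- conjugation exchanges two sets of irreducible characters -/
theorem card_bar (Q Q' : (K → ℂ) → Prop)
    (hQ : ∀ χ, IsIrreducibleCharacter χ → Q χ → Q' (fun g => χ g⁻¹))
    (hQ' : ∀ χ, IsIrreducibleCharacter χ → Q' χ → Q (fun g => χ g⁻¹)) :
    Nat.card {χ : K → ℂ // IsIrreducibleCharacter χ ∧ Q χ} =
      Nat.card {χ : K → ℂ // IsIrreducibleCharacter χ ∧ Q' χ} :=
  Nat.card_congr
    { toFun := fun x => ⟨fun g => x.1 g⁻¹, irr_inv x.2.1, hQ x.1 x.2.1 x.2.2⟩
      invFun := fun x => ⟨fun g => x.1 g⁻¹, irr_inv x.2.1, hQ' x.1 x.2.1 x.2.2⟩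
      left_inv := fun x => Subtype.ext (funext fun g => by
        change x.1 g⁻¹⁻¹ = x.1 g
        rw [inv_inv])
      right_inv := fun x => Subtype.ext (funext fun g => by
        change x.1 g⁻¹⁻¹ = x.1 g
        rw [inv_inv]) }

end invol

end Pool.Agent.Q149.DB
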