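import Pool.Agent.Y63.NV.Wblk930
import Pool.Agent.Y63.NV.Bawc

/-!
# Brauer induction of blocks from the stabilisers of chains of `p`-subgroups
-/

set_option autoImplicit false
set_option linter.unusedSectionVars false

open scoped BigOperators Classical

noncomputable section

namespace Pool.Agent.Q149.DB

open Pool.Agent.Y63.NV (IsBlock IsClassFun conv cut centralValue)
open Pool.Agent.Y63.NV.B930 (fx mem_fx sum_fixed)

variable {F : Type} [Field F]

section fixed

/-- a `p`-group acting on a nonzero module over the field of order `p` has a nonzero fixed point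
(helper254) -/
theorem exists_fixed' {p : ℕ} [hp : Fact p.Prime] {D : Type} [Group D] [Finite D] (hD : IsPGroup p D)
    {A : Type} [AddCommGroup A] [DistribMulAction D A] [Module (ZMod p) A]
    (hpA : ∀ a : A, p • a = 0) [Nontrivial A] :
    ∃ a : A, a ≠ 0 ∧ ∀ d : D, d • a = a := by
  obtain ⟨a, ha⟩ := exists_ne (0 : A)
  set S : Submodule (ZMod p) A := Submodule.span (ZMod p) (Set.range fun d : D => d • a) with hS
  have hstab : ∀ (d : D) (s : A), s ∈ S → d • s ∈ S := by
    intro d s hs
    induction hs using Submodule.span_induction with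
    | mem x hx =>
      obtain ⟨e, rfl⟩ := hx
      apply Submodule.subset_span
      exact ⟨d * e, by simp [mul_smul]⟩
    | zero => rw [smul_zero]; exact S.zero_mem
    | add x y _ _ hx hy => rw [smul_add]; exact S.add_mem hx hy
    | smul c x _ hx =>
      have h1 : d • (c • x) = c • (d • x) := by
        have := ((DistribSMul.toAddMonoidHom A d).toZModLinearMap p).map_smul c x
        exact this
      rw [h1]
      exact S.smul_mem c hx
  letI : MulAction D S :=
    { smul := fun d s => ⟨d • (s : A), hstab d s s.2⟩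
      one_smul := fun s => Subtype.ext (one_smul D (s : A))
      mul_smul := fun d e s => Subtype.ext (mul_smul d e (s : A)) }
  haveI : FiniteDimensional (ZMod p) S := by
    rw [hS]
    exact FiniteDimensional.span_of_finite (ZMod p) (Set.finite_range _)
  haveI : Finite S := Module.finite_of_finite (ZMod p)
  have haS : a ∈ S := Submodule.subset_span ⟨1, by simp⟩
  have hdvd : p ∣ Nat.card S := by
    have h1 : addOrderOf (⟨a, haS⟩ : S) = p := by
      apply addOrderOf_eq_prime
      · exact Subtype.ext (hpA a)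
      · intro h
        exact ha (congrArg Subtype.val h)
    exact (dvd_of_eq h1.symm).trans (addOrderOf_dvd_natCard _)
  obtain ⟨b, hb, hb0⟩ := hD.exists_fixed_point_of_prime_dvd_card_of_fixed_point S hdvd
    (a := (0 : S)) (by
      rw [MulAction.mem_fixedPoints]
      intro d
      exact Subtype.ext (smul_zero d))
  refine ⟨b, fun h => hb0 (Subtype.ext h.symm), fun d => ?_⟩
  exact congrArg Subtype.val (hb d)

theorem exists_fixed {p : ℕ} [hp : Fact p.Prime] {D : Type} [Group D] [Finite D]
    (hD : IsPGroup p D) {A : Type} [AddCommGroup A] [DistribMulAction D A]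
    (hpA : ∀ a : A, p • a = 0) [Nontrivial A] :
    ∃ a : A, a ≠ 0 ∧ ∀ d : D, d • a = a := by
  letI : Module (ZMod p) A := AddCommGroup.zmodModule hpA
  exact exists_fixed' hD hpA

end fixed

section nil

variable {N : Type} [Group N] [Fintype N]

/-- convolution with `z` -/
def cvm (z : N → F) : Module.End F (N → F) where
  toFun v := fun x => ∑ y : N, z y * v (y⁻¹ * x)
  map_add' a b := by
    funext x
    simp only [Pi.add_apply, mul_add, Finset.sum_add_distrib]
  map_smul' c a := by
    funext x
    simp only [Pi.smul_apply, smul_eq_mul, RingHom.id_apply, Finset.mul_sum]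
    exact Finset.sum_congr rfl fun y _ => by ring

theorem cvm_apply (z v : N → F) (x : N) : cvm z v x = ∑ y : N, z y * v (y⁻¹ * x) := rfl

theorem cvm_conv (z v : N → F) : cvm z v = conv z v := by
  funext x
  unfold conv
  rw [finsum_eq_sum_of_fintype, cvm_apply]

/-- left translation -/
def lt (g : N) (v : N → F) : N → F := fun x => v (g⁻¹ * x)

theorem cvm_lt {z : N → F} (hz : IsClassFun z) (g : N) (v : N → F) :
    cvm z (lt g v) = lt g (cvm z v) := by
  funext x
  change ∑ y : N, z y * v (g⁻¹ * (y⁻¹ * x)) = ∑ y : N, z y * v (y⁻¹ * (g⁻¹ * x))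
  symm
  refine Fintype.sum_equiv (MulAut.conj g).toEquiv _ _ fun y => ?_
  have e1 : (MulAut.conj g).toEquiv y = g * y * g⁻¹ := by simp
  rw [e1, hz g y]
  congr 2
  group

theorem cvm_pow_lt {z : N → F} (hz : IsClassFun z) (n : ℕ) (g : N) (v : N → F) :
    (cvm z ^ n) (lt g v) = lt g ((cvm z ^ n) v) := by
  induction n with
  | zero => rfl
  | succ n ih =>
    rw [pow_succ', Module.End.mul_apply, Module.End.mul_apply, ih, cvm_lt hz]

theorem cvm_fixed {p : ℕ} [Fact p.Prime] [CharP F p] {Q : Subgroup N} (hQn : Q.Normal)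
    (hQ : IsPGroup p Q) {z : N → F} (hz : IsClassFun z)
    (h0 : ∀ x ∈ Subgroup.centralizer (Q : Set N), z x = 0) {v : N → F}
    (hv : ∀ q ∈ Q, ∀ x, v (q * x) = v x) : cvm z v = 0 := by
  funext x
  rw [cvm_apply]
  let _ : MulAction Q N := MulAction.compHom N (MulAut.conj.comp Q.subtype)
  have hact : ∀ (q : Q) (y : N), q • y = (q : N) * y * (q : N)⁻¹ := fun q y => rfl
  rw [sum_fixed (p := p) (Q := Q) (Y := N) hQ (fun y => z y * v (y⁻¹ * x)) (by
    intro q y
    rw [hact, hz]
    have e2 : ((q : N) * y * (q : N)⁻¹)⁻¹ * x =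
        (q * (y⁻¹ * (q : N)⁻¹ * y)) * (y⁻¹ * x) := by group
    have e3 : (q : N) * (y⁻¹ * (q : N)⁻¹ * y) ∈ Q := by
      refine Q.mul_mem q.2 ?_
      have := hQn.conj_mem (q : N)⁻¹ (Q.inv_mem q.2) y⁻¹
      rwa [inv_inv] at this
    rw [e2, hv _ e3])]
  refine Finset.sum_eq_zero fun y hy => ?_
  have hy2 := (mem_fx _).1 hy
  rw [h0 y, zero_mul]
  rw [Subgroup.mem_centralizer_iff]
  intro q hq
  have := hy2 ⟨q, hq⟩
  rw [hact] at this
  exact mul_inv_eq_iff_eq_mul.1 this

/-- class functions vanishing on the centraliser of a normal `p`-subgroup are nilpotent -/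
theorem cvm_nil {p : ℕ} [Fact p.Prime] [CharP F p] {Q : Subgroup N} (hQn : Q.Normal)
    (hQ : IsPGroup p Q) {z : N → F} (hz : IsClassFun z)
    (h0 : ∀ x ∈ Subgroup.centralizer (Q : Set N), z x = 0) : ∃ n : ℕ, cvm z ^ n = 0 := by
  obtain ⟨n, hn⟩ := Filter.eventually_atTop.1
    (Module.End.eventually_disjoint_ker_pow_range_pow (cvm z))
  refine ⟨n + 1, ?_⟩
  by_contra hne
  have hd := hn (n + 1) (by omega)
  set U := LinearMap.range (cvm z ^ (n + 1)) with hU
  have hU0 : U ≠ ⊥ := by
    intro h
    exact hne (LinearMap.range_eq_bot.1 h)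
  have hnt : Nontrivial U := (Submodule.nontrivial_iff_ne_bot).2 hU0
  have hstab : ∀ (g : N) (u : N → F), u ∈ U → lt g u ∈ U := by
    rintro g _ ⟨w, rfl⟩
    exact ⟨lt g w, cvm_pow_lt hz _ _ _⟩
  letI : DistribMulAction Q U :=
    { smul := fun q u => ⟨lt (q : N) u.1, hstab _ _ u.2⟩
      one_smul := fun u => by
        apply Subtype.ext
        change lt (1 : N) u.1 = u.1
        funext x
        unfold lt
        rw [inv_one, one_mul]
      mul_smul := fun q r u => by
        apply Subtype.ext
        change lt ((q : N) * r) u.1 = lt (q : N) (lt (r : N) u.1)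
        funext x
        unfold lt
        rw [mul_inv_rev, mul_assoc]
      smul_zero := fun q => rfl
      smul_add := fun q u w => rfl }
  obtain ⟨a, ha0, ha⟩ := exists_fixed (A := U) hQ (fun a => by
    apply Subtype.ext
    funext x
    change p • a.1 x = 0
    rw [nsmul_eq_mul, CharP.cast_eq_zero, zero_mul])
  have hfix : ∀ q ∈ Q, ∀ x, a.1 (q * x) = a.1 x := by
    intro q hq x
    have h1 : lt (q⁻¹ : N) a.1 = a.1 := congrArg Subtype.val (ha ⟨q⁻¹, Q.inv_mem hq⟩)
    have h2 := congrFun h1 x
    unfold lt at h2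
    rwa [inv_inv] at h2
  have h1 := cvm_fixed hQn hQ hz h0 hfix
  have h2 : a.1 ∈ LinearMap.ker (cvm z ^ (n + 1)) := by
    rw [LinearMap.mem_ker, pow_succ, Module.End.mul_apply, h1, map_zero]
  have h3 : a.1 = 0 := by
    have := (Submodule.disjoint_def.1 hd) a.1 h2 a.2
    exact this
  exact ha0 (Subtype.ext h3)

theorem block_zero {p : ℕ} [Fact p.Prime] [CharP F p] {Q : Subgroup N} (hQn : Q.Normal)
    (hQ : IsPGroup p Q) {b : (N → F) → F} (hb : IsBlock b) {z : N → F} (hz : IsClassFun z)
    (h0 : ∀ x ∈ Subgroup.centralizer (Q : Set N), z x = 0) : b z = 0 := by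
  obtain ⟨n, hn⟩ := cvm_nil hQn hQ hz h0
  have hs : IsClassFun (Pi.single (1 : N) (1 : F)) := Pool.Agent.Y63.NV.B286.single_class
  have key : ∀ k : ℕ, IsClassFun ((cvm z ^ k) (Pi.single (1 : N) (1 : F))) ∧
      b ((cvm z ^ k) (Pi.single (1 : N) (1 : F))) = b z ^ k := by
    intro k
    induction k with
    | zero => exact ⟨hs, by rw [pow_zero, pow_zero]; exact hb.one⟩
    | succ k ih =>
      rw [pow_succ', Module.End.mul_apply, cvm_conv, pow_succ', ← ih.2]
      exact ⟨Pool.Agent.Y63.NV.B286.conv_class hz ih.1, hb.mul _ _ hz ih.1⟩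
  have h1 := (key n).2
  rw [hn, LinearMap.zero_apply] at h1
  have h2 : b 0 = 0 := by
    have := hb.smul 0 (0 : N → F) (fun _ _ => rfl)
    rwa [zero_smul, zero_mul] at this
  rw [h2] at h1
  exact eq_zero_of_pow_eq_zero h1.symm

end nil

section induce

variable {K G : Type} [Group K] [Group G] [Finite K] [Finite G]

/-- **Brauer induction** along an embedding `φ : K → G` with `Q C_G(Q) ≤ φ(K) ≤ N_G(Q)` -/
theorem ind_block {p : ℕ} [Fact p.Prime] [CharP F p] (φ : K →* G) (hφ : Function.Injective φ)
    (Q : Subgroup G) (hQ : IsPGroup p Q) (h1 : Q ≤ φ.range)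
    (h2 : φ.range ≤ Subgroup.normalizer (Q : Set G))
    (h3 : Subgroup.centralizer (Q : Set G) ≤ φ.range) {b : (K → F) → F} (hb : IsBlock b) :
    IsBlock (fun f : G → F => b (fun x => f (φ x))) := by
  have : Fintype K := Fintype.ofFinite K
  have : Fintype G := Fintype.ofFinite G
  set QJ : Subgroup K := Q.comap φ with hQJ
  have hmem : ∀ x : K, x ∈ QJ ↔ φ x ∈ Q := fun x => Iff.rfl
  have hnorm : QJ.Normal := by
    refine ⟨fun q hq k => ?_⟩
    rw [hmem, map_mul, map_mul, map_inv]
    exact (Subgroup.mem_normalizer_iff.1 (h2 ⟨k, rfl⟩) _).1 hq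
  have hpg : IsPGroup p QJ := hQ.comap_of_injective φ hφ
  have hcen : ∀ x : K, x ∈ Subgroup.centralizer (QJ : Set K) ↔
      φ x ∈ Subgroup.centralizer (Q : Set G) := by
    intro x
    rw [Subgroup.mem_centralizer_iff, Subgroup.mem_centralizer_iff]
    constructor
    · intro h q hq
      obtain ⟨k, rfl⟩ := h1 hq
      rw [← map_mul, ← map_mul, h k hq]
    · intro h q hq
      apply hφ
      rw [map_mul, map_mul]
      exact h _ hq
  have hres : ∀ f : G → F, IsClassFun f → IsClassFun (fun x : K => f (φ x)) := by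
    intro f hf g x
    change f (φ (g * x * g⁻¹)) = f (φ x)
    rw [map_mul, map_mul, map_inv]
    exact hf _ _
  have hcut : ∀ f : K → F, IsClassFun f →
      IsClassFun (cut f (Subgroup.centralizer (QJ : Set K))) := by
    intro f hf g x
    unfold cut
    have e : g * x * g⁻¹ ∈ Subgroup.centralizer (QJ : Set K) ↔
        x ∈ Subgroup.centralizer (QJ : Set K) := by
      have hn : (Subgroup.centralizer (QJ : Set K)).Normal := by
        have := hnorm
        infer_instance
      constructor
      · intro h
        have := hn.conj_mem _ h g⁻¹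
        rwa [show g⁻¹ * (g * x * g⁻¹) * g⁻¹⁻¹ = x by group] at this
      · exact fun h => hn.conj_mem _ h g
    simp only [e]
    split_ifs
    · exact hf g x
    · rfl
  have hval : ∀ f : K → F, IsClassFun f →
      b f = b (cut f (Subgroup.centralizer (QJ : Set K))) := by
    intro f hf
    have hneg : IsClassFun ((-1 : F) • cut f (Subgroup.centralizer (QJ : Set K))) := by
      intro g x
      have := hcut f hf g x
      rw [Pi.smul_apply, Pi.smul_apply, this]
    have hcl : IsClassFun (f + (-1 : F) • cut f (Subgroup.centralizer (QJ : Set K))) := by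
      intro g x
      rw [Pi.add_apply, Pi.add_apply, hf g x, hneg g x]
    have h4 := block_zero hnorm hpg hb hcl (by
      intro x hx
      rw [Pi.add_apply, Pi.smul_apply, cut, if_pos hx, smul_eq_mul]
      ring)
    rw [hb.add _ _ hf hneg, hb.smul _ _ (hcut f hf)] at h4
    linear_combination h4
  refine ⟨?_, ?_, ?_, ?_⟩
  · intro f g hf hg
    exact hb.add _ _ (hres f hf) (hres g hg)
  · intro a f hf
    exact hb.smul a _ (hres f hf)
  · refine Eq.trans (congrArg b ?_) hb.one
    funext x
    by_cases hx : x = 1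
    · subst hx
      rw [map_one, Pi.single_eq_same, Pi.single_eq_same]
    · rw [Pi.single_eq_of_ne hx, Pi.single_eq_of_ne]
      intro h
      exact hx (hφ (h.trans (map_one φ).symm))
  · intro f g hf hg
    have hconv : IsClassFun (conv f g) := Pool.Agent.Y63.NV.B286.conv_class hf hg
    change b (fun x : K => conv f g (φ x)) = b (fun x => f (φ x)) * b (fun x => g (φ x))
    rw [hval _ (hres _ hconv), hval _ (hres f hf), hval _ (hres g hg),
      ← hb.mul _ _ (hcut _ (hres f hf)) (hcut _ (hres g hg))]
    congr 1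
    funext x
    unfold conv
    rw [finsum_eq_sum_of_fintype]
    by_cases hx : x ∈ Subgroup.centralizer (QJ : Set K)
    · unfold cut
      rw [if_pos hx]
      change ∑ᶠ y : G, f y * g (y⁻¹ * φ x) = ∑ y : K,
        (if y ∈ Subgroup.centralizer (QJ : Set K) then f (φ y) else 0) *
          if y⁻¹ * x ∈ Subgroup.centralizer (QJ : Set K) then g (φ (y⁻¹ * x)) else 0
      rw [finsum_eq_sum_of_fintype]
      let _ : MulAction Q G := MulAction.compHom G (MulAut.conj.comp Q.subtype)
      have hact : ∀ (q : Q) (y : G), q • y = (q : G) * y * (q : G)⁻¹ := fun q y => rfl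
      have hxq : ∀ q ∈ Q, q * φ x = φ x * q := by
        intro q hq
        exact Subgroup.mem_centralizer_iff.1 ((hcen x).1 hx) q hq
      rw [sum_fixed (p := p) (Q := Q) (Y := G) hQ (fun y => f y * g (y⁻¹ * φ x)) (by
        intro q y
        rw [hact]
        have e1 : g (((q : G) * y * (q : G)⁻¹)⁻¹ * φ x) = g (y⁻¹ * φ x) := by
          have e2 : ((q : G) * y * (q : G)⁻¹)⁻¹ * φ x = (q : G) * (y⁻¹ * φ x) * (q : G)⁻¹ := by
            have e3 : (q : G)⁻¹ * φ x = φ x * (q : G)⁻¹ := hxq (q : G)⁻¹ (Q.inv_mem q.2)
            rw [mul_inv_rev, mul_inv_rev, inv_inv, mul_assoc, mul_assoc, mul_assoc, mul_assoc, e3]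
          rw [e2, hg]
        rw [e1, hf])]
      symm
      have key : ∀ y : K, ((if y ∈ Subgroup.centralizer (QJ : Set K) then f (φ y) else 0) *
          if y⁻¹ * x ∈ Subgroup.centralizer (QJ : Set K) then g (φ (y⁻¹ * x)) else 0) =
          if y ∈ Subgroup.centralizer (QJ : Set K) then f (φ y) * g ((φ y)⁻¹ * φ x) else 0 := by
        intro y
        by_cases hy : y ∈ Subgroup.centralizer (QJ : Set K)
        · have hyx : y⁻¹ * x ∈ Subgroup.centralizer (QJ : Set K) :=
            Subgroup.mul_mem _ (Subgroup.inv_mem _ hy) hx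
          rw [if_pos hy, if_pos hy, if_pos hyx, map_mul, map_inv]
        · rw [if_neg hy, if_neg hy, zero_mul]
      rw [Finset.sum_congr rfl (fun y _ => key y), ← Finset.sum_filter]
      refine Finset.sum_bij (fun y _ => φ y) ?_ ?_ ?_ ?_
      · intro y hy
        have hy2 := (hcen y).1 (Finset.mem_filter.1 hy).2
        refine (mem_fx _).2 fun q => ?_
        rw [hact]
        have h4 : (q : G) * φ y = φ y * q := Subgroup.mem_centralizer_iff.1 hy2 q q.2
        rw [h4, mul_inv_cancel_right]
      · intro a _ b _ hab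
        exact hφ hab
      · intro b hb
        have hb2 := (mem_fx _).1 hb
        have hbc : b ∈ Subgroup.centralizer (Q : Set G) := by
          rw [Subgroup.mem_centralizer_iff]
          intro q hq
          have := hb2 ⟨q, hq⟩
          rw [hact] at this
          exact mul_inv_eq_iff_eq_mul.1 this
        obtain ⟨k, rfl⟩ := h3 hbc
        exact ⟨k, Finset.mem_filter.2 ⟨Finset.mem_univ _, (hcen k).2 hbc⟩, rfl⟩
      · intro a _
        rfl
    · unfold cut
      rw [if_neg hx]
      symm
      apply Finset.sum_eq_zero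
      intro y _
      by_cases hy : y ∈ Subgroup.centralizer (QJ : Set K)
      · by_cases hyx : y⁻¹ * x ∈ Subgroup.centralizer (QJ : Set K)
        · exfalso
          apply hx
          have := Subgroup.mul_mem _ hy hyx
          rwa [mul_inv_cancel_left] at this
        · rw [if_neg hyx, mul_zero]
      · rw [if_neg hy, zero_mul]

end induce

section chains

open Pool.Agent.Y63.KR (chainStabilizer)

variable {G : Type} [Group G] [Finite G]

theorem le_stab {K : Subgroup G} {σ : Set (Subgroup G)} :
    K ≤ chainStabilizer σ ↔ ∀ P ∈ σ, K ≤ Subgroup.normalizer (P : Set G) := by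
  unfold chainStabilizer
  simp only [le_iInf_iff]

/-- **blocks of chain stabilisers induce** -/
theorem chain_block {p : ℕ} [Fact p.Prime] [CharP F p] : ∀ (n : ℕ) (σ : Set (Subgroup G)),
    σ.ncard = n → IsChain (· ≤ ·) σ → (∀ P ∈ σ, IsPGroup p P) →
    ∀ b : (chainStabilizer σ → F) → F, IsBlock b →
      IsBlock (fun f : G → F => b (fun x => f x)) := by
  intro n
  induction n with
  | zero =>
    intro σ h0 _ _ b hb
    have hσ : σ = ∅ := (Set.ncard_eq_zero (Set.toFinite σ)).1 h0
    refine ind_block (p := p) (chainStabilizer σ).subtype (Subgroup.subtype_injective _) ⊥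
      IsPGroup.of_bot bot_le ?_ ?_ hb
    · intro x _
      rw [Subgroup.mem_normalizer_iff]
      intro h
      simp only [Subgroup.mem_bot]
      constructor
      · rintro rfl
        group
      · intro h1
        have h2 : x * h = x := by
          rw [mul_inv_eq_one] at h1
          exact h1
        exact mul_eq_left.1 h2
    · rw [Subgroup.range_subtype, le_stab]
      intro P hP
      rw [hσ] at hP
      exact absurd hP (Set.notMem_empty P)
  | succ n ih =>
    intro σ hn hc hp b hb
    have hne : σ.Nonempty := by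
      rw [Set.nonempty_iff_ne_empty]
      rintro rfl
      rw [Set.ncard_empty] at hn
      omega
    obtain ⟨D, hD, hmin⟩ := (Set.toFinite σ).exists_minimal hne
    have hle : ∀ P ∈ σ, D ≤ P := by
      intro P hP
      rcases hc.total hD hP with h | h
      · exact h
      · exact hmin hP h
    set τ := σ \ {D} with hτ
    have hτn : τ.ncard = n := by
      rw [hτ, Set.ncard_diff_singleton_of_mem hD, hn]
      omega
    have hτσ : τ ⊆ σ := Set.diff_subset
    have hle2 : chainStabilizer σ ≤ chainStabilizer τ := by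
      rw [le_stab]
      intro P hP
      exact le_stab.1 le_rfl P (hτσ hP)
    have hDτ : D ≤ chainStabilizer τ := by
      rw [le_stab]
      intro P hP
      exact (hle P (hτσ hP)).trans Subgroup.le_normalizer
    have hDσ : D ≤ chainStabilizer σ := by
      rw [le_stab]
      intro P hP
      exact (hle P hP).trans Subgroup.le_normalizer
    have hfin : Finite (chainStabilizer τ) := inferInstance
    have h4 := ind_block (p := p) (Subgroup.inclusion hle2) (Subgroup.inclusion_injective hle2)
      (D.subgroupOf (chainStabilizer τ)) ((hp D hD).comap_subtype) (by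
        intro x hx
        exact ⟨⟨x.1, hDσ (Subgroup.mem_subgroupOf.1 hx)⟩, rfl⟩) (by
        rintro _ ⟨x, rfl⟩
        rw [Subgroup.mem_normalizer_iff]
        intro h
        rw [Subgroup.mem_subgroupOf, Subgroup.mem_subgroupOf]
        exact (Subgroup.mem_normalizer_iff.1 (le_stab.1 le_rfl D hD x.2)) h.1) (by
        intro x hx
        refine ⟨⟨x.1, ?_⟩, rfl⟩
        have hx1 : x.1 ∈ Subgroup.centralizer (D : Set G) := by
          rw [Subgroup.mem_centralizer_iff]
          intro q hq
          exact congrArg Subtype.val (Subgroup.mem_centralizer_iff.1 hx ⟨q, hDτ hq⟩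
            (Subgroup.mem_subgroupOf.2 hq))
        have h5 : x.1 ∈ Subgroup.normalizer (D : Set G) := Subgroup.centralizer_le_normalizer _ hx1
        have h6 : ∀ P ∈ σ, x.1 ∈ Subgroup.normalizer (P : Set G) := by
          intro P hP
          by_cases h7 : P = D
          · rw [h7]
            exact h5
          · exact le_stab.1 le_rfl P (⟨hP, h7⟩ : P ∈ τ) x.2
        have h8 : Subgroup.zpowers x.1 ≤ chainStabilizer σ := by
          rw [le_stab]
          intro P hP
          rw [Subgroup.zpowers_le]
          exact h6 P hP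
        exact h8 (Subgroup.mem_zpowers x.1)) hb
    exact ih τ hτn (hc.mono hτσ) (fun P hP => hp P (hτσ hP)) _ h4

end chains

end Pool.Agent.Q149.DB
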