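import Pool.Agent.Q149.DB.Bar
import Pool.Agent.Q149.DB.Ind
import Pool.Agent.Q149.WB.Blk

/-!
# From central elements to blocks and back, for the characters of chain stabilisers
-/

set_option autoImplicit false
set_option linter.unusedSectionVars false

open scoped BigOperators Classical

noncomputable section

namespace Pool.Agent.Q149.DB

open Pool.Agent.Y63.KR Pool.Agent.Helper884.IC Pool.Agent.Q90.WR
open Pool.Agent.Y63.NV (centralValue IsClassFun IsBlock conv)
open Pool.Agent.Y63.NV.B48B (card_fib CF rs)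
open Pool.Agent.Y63.AWC (IsIrreducibleCharacter)
open Pool.Agent.Q149.WB (sep rs_eq)
open Pool.Agent.Q99.AS (altSum IsCh chSetoid)

variable {F : Type} [Field F] (red : integralClosure ℤ ℂ →+* F)

section

variable {G : Type} [Group G]

/-- the block of `G` induced by the block of `ϑ ∈ Irr(H)`, as a functional on the centre -/
def bl {H : Subgroup G} (ϑ : H → ℂ) : CF G F → F := rs (fun f => centralValue red ϑ (rst f H))

/-- the conjugate of a functional -/
def bar (β : CF G F → F) : CF G F → F := fun f => β ⟨st f.1, st_class f.2⟩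

theorem bar_bar (β : CF G F → F) : bar (bar β) = β := by
  funext f
  change β ⟨st (st f.1), _⟩ = β f
  congr 1
  exact Subtype.ext (st_st f.1)

/-- the block `B` is real: it is invariant under complex conjugation -/
def RealBlock (B : (G → F) → F) : Prop :=
  ∀ f : G → F, IsClassFun f → B (fun x => f x⁻¹) = B f

theorem real_block_iff {B : (G → F) → F} : RealBlock B ↔ bar (rs B) = rs B := by
  constructor
  · intro h
    funext f
    exact h f.1 f.2
  · intro h f hf
    exact congrFun h ⟨f, hf⟩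

theorem bl_inv [Finite G] {H : Subgroup G} {ϑ : H → ℂ} (h : IsIrreducibleCharacter ϑ) :
    bl red (fun g => ϑ g⁻¹) = bar (bl red ϑ) := by
  have : Fintype H := Fintype.ofFinite H
  funext f
  exact cv_inv red h (rst_class f.2 H)

/-- the number of the characters with property `P` and nonvanishing central value -/
def nz (P : ∀ H : Subgroup G, (H → ℂ) → Prop) (z : G → F) (H : Subgroup G) : ℕ :=
  Nat.card {ϑ : H → ℂ // IsIrreducibleCharacter ϑ ∧ P H ϑ ∧ centralValue red ϑ (rst z H) ≠ 0}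

/-- the number of the characters with property `P` which induce to `β` -/
def nb (P : ∀ H : Subgroup G, (H → ℂ) → Prop) (β : CF G F → F) (H : Subgroup G) : ℕ :=
  Nat.card {ϑ : H → ℂ // IsIrreducibleCharacter ϑ ∧ P H ϑ ∧ bl red ϑ = β}

/-- the weighted sum over the classes of chains -/
def tot (p : ℕ) (w : Set (Subgroup G) → ℤ) (n : Subgroup G → ℕ) : ℤ :=
  ∑ᶠ c : Quotient (chSetoid p (⊥ : Subgroup G)), w c.out.1 * (n (chainStabilizer c.out.1) : ℤ)

variable (G) in
/-- a finite set of functionals that contains those of all characters of the chain stabilisers -/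
structure Pack (p : ℕ) (S : Finset (CF G F → F)) : Prop where
  block : ∀ β ∈ S, ∃ B, IsBlock B ∧ rs B = β
  bar : ∀ β ∈ S, bar β ∈ S
  chain : ∀ σ : Set (Subgroup G), IsCh p ⊥ σ → ∀ ϑ : chainStabilizer σ → ℂ,
    IsIrreducibleCharacter ϑ → bl red ϑ ∈ S
  whole : ∀ χ : G → ℂ, IsIrreducibleCharacter χ → rs (centralValue red χ) ∈ S

theorem exists_pack (p : ℕ) [Fact p.Prime] [CharP F p] [Finite G] :
    ∃ S : Finset (CF G F → F), Pack red G p S := by
  have : Fintype G := Fintype.ofFinite G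
  have hfin : ∀ H : Subgroup G, Finite {ϑ : H → ℂ // IsIrreducibleCharacter ϑ} := by
    intro H
    have : Fintype H := Fintype.ofFinite H
    have : Finite {χ : H → ℂ // χ ∈ Irr H} := inferInstance
    exact Finite.of_injective
      (fun χ : {χ : H → ℂ // IsIrreducibleCharacter χ} =>
        (⟨χ.1, mem_Irr.mpr χ.2⟩ : {χ : H → ℂ // χ ∈ Irr H}))
      (fun a b hab => Subtype.ext (congrArg (fun z : {χ : H → ℂ // χ ∈ Irr H} => z.1) hab))
  have hfinG : Finite {χ : G → ℂ // IsIrreducibleCharacter χ} := by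
    have : Finite {χ : G → ℂ // χ ∈ Irr G} := inferInstance
    exact Finite.of_injective
      (fun χ : {χ : G → ℂ // IsIrreducibleCharacter χ} =>
        (⟨χ.1, mem_Irr.mpr χ.2⟩ : {χ : G → ℂ // χ ∈ Irr G}))
      (fun a b hab => Subtype.ext (congrArg (fun z : {χ : G → ℂ // χ ∈ Irr G} => z.1) hab))
  let Ix : Type := {σ : Set (Subgroup G) // IsCh p ⊥ σ}
  let T : Set (CF G F → F) := {β | (∃ (σ : Ix) (ϑ : chainStabilizer σ.1 → ℂ),
    IsIrreducibleCharacter ϑ ∧ bl red ϑ = β) ∨ ∃ χ : G → ℂ, IsIrreducibleCharacter χ ∧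
      rs (centralValue red χ) = β}
  have hT : T.Finite := by
    have h1 : T ⊆ (⋃ σ : Ix, Set.range
        (fun ϑ : {ϑ : chainStabilizer σ.1 → ℂ // IsIrreducibleCharacter ϑ} => bl red ϑ.1)) ∪
        Set.range (fun χ : {χ : G → ℂ // IsIrreducibleCharacter χ} =>
          rs (centralValue red χ.1)) := by
      rintro β (⟨σ, ϑ, h, rfl⟩ | ⟨χ, h, rfl⟩)
      · exact Or.inl (Set.mem_iUnion.2 ⟨σ, ⟨ϑ, h⟩, rfl⟩)
      · exact Or.inr ⟨⟨χ, h⟩, rfl⟩
    refine Set.Finite.subset (Set.Finite.union (Set.finite_iUnion fun σ => ?_) ?_) h1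
    · exact Set.finite_range _
    · exact Set.finite_range _
  refine ⟨hT.toFinset, ?_, ?_, ?_, ?_⟩
  · intro β hβ
    rw [Set.Finite.mem_toFinset] at hβ
    rcases hβ with ⟨σ, ϑ, h, rfl⟩ | ⟨χ, h, rfl⟩
    · have hb := Pool.Agent.Y930.NV.cvh F red (chainStabilizer σ.1) ϑ h
      exact ⟨_, chain_block (p := p) _ σ.1 rfl σ.2.chain σ.2.isPGroup _ hb, rfl⟩
    · exact ⟨_, Pool.Agent.Y930.NV.cvh F red G χ h, rfl⟩
  · intro β hβ
    rw [Set.Finite.mem_toFinset] at hβ ⊢
    rcases hβ with ⟨σ, ϑ, h, rfl⟩ | ⟨χ, h, rfl⟩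
    · have : Fintype (chainStabilizer σ.1) := Fintype.ofFinite _
      exact Or.inl ⟨σ, fun g => ϑ g⁻¹, irr_inv h, bl_inv red h⟩
    · refine Or.inr ⟨fun g => χ g⁻¹, irr_inv h, ?_⟩
      funext f
      exact cv_inv red h f.2
  · intro σ hσ ϑ h
    rw [Set.Finite.mem_toFinset]
    exact Or.inl ⟨⟨σ, hσ⟩, ϑ, h, rfl⟩
  · intro χ h
    rw [Set.Finite.mem_toFinset]
    exact Or.inr ⟨χ, h, rfl⟩

variable {p : ℕ} [Finite G] {S : Finset (CF G F → F)}

theorem nz_eq (hS : Pack red G p S) (P : ∀ H : Subgroup G, (H → ℂ) → Prop) {z : G → F}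
    (hz : IsClassFun z) {σ : Set (Subgroup G)} (hσ : IsCh p ⊥ σ) :
    nz red P z (chainStabilizer σ) =
      ∑ β ∈ S, if β ⟨z, hz⟩ ≠ 0 then nb red P β (chainStabilizer σ) else 0 := by
  have : Fintype (chainStabilizer σ) := Fintype.ofFinite _
  let Y : Type := {ϑ : chainStabilizer σ → ℂ // IsIrreducibleCharacter ϑ ∧ P (chainStabilizer σ) ϑ}
  have hY : Finite Y := by
    have : Finite {χ : chainStabilizer σ → ℂ // χ ∈ Irr (chainStabilizer σ)} := inferInstance
    exact Finite.of_injective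
      (fun χ : Y => (⟨χ.1, mem_Irr.mpr χ.2.1⟩ :
        {χ : chainStabilizer σ → ℂ // χ ∈ Irr (chainStabilizer σ)}))
      (fun a b hab => Subtype.ext (congrArg
        (fun z : {χ : chainStabilizer σ → ℂ // χ ∈ Irr (chainStabilizer σ)} => z.1) hab))
  have h1 := card_fib (fun ϑ : Y => bl red ϑ.1) S (fun ϑ => hS.chain σ hσ ϑ.1 ϑ.2.1)
    (fun β => β ⟨z, hz⟩ ≠ 0)
  have h2 : nz red P z (chainStabilizer σ) = Nat.card {ϑ : Y // bl red ϑ.1 ⟨z, hz⟩ ≠ 0} :=
    Nat.card_congr
      { toFun := fun ϑ => ⟨⟨ϑ.1, ϑ.2.1, ϑ.2.2.1⟩, ϑ.2.2.2⟩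
        invFun := fun ϑ => ⟨ϑ.1.1, ϑ.1.2.1, ϑ.1.2.2, ϑ.2⟩
        left_inv := fun _ => rfl
        right_inv := fun _ => rfl }
  have h3 : ∀ β, nb red P β (chainStabilizer σ) = Nat.card {ϑ : Y // bl red ϑ.1 = β} := fun β =>
    Nat.card_congr
      { toFun := fun ϑ => ⟨⟨ϑ.1, ϑ.2.1, ϑ.2.2.1⟩, ϑ.2.2.2⟩
        invFun := fun ϑ => ⟨ϑ.1.1, ϑ.1.2.1, ϑ.1.2.2, ϑ.2⟩
        left_inv := fun _ => rfl
        right_inv := fun _ => rfl }
  rw [h2]
  refine h1.trans (Finset.sum_congr rfl fun β _ => ?_)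
  by_cases h : β ⟨z, hz⟩ ≠ 0
  · rw [if_pos h, if_pos h, h3]
  · rw [if_neg h, if_neg h]

theorem tot_nz (hS : Pack red G p S) (P : ∀ H : Subgroup G, (H → ℂ) → Prop)
    (w : Set (Subgroup G) → ℤ) {z : G → F} (hz : IsClassFun z) :
    tot p w (nz red P z) = ∑ β ∈ S, if β ⟨z, hz⟩ ≠ 0 then tot p w (nb red P β) else 0 := by
  have hq : Fintype (Quotient (chSetoid p (⊥ : Subgroup G))) := Fintype.ofFinite _
  unfold tot
  rw [finsum_eq_sum_of_fintype]
  have h1 : ∀ c : Quotient (chSetoid p (⊥ : Subgroup G)),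
      w c.out.1 * (nz red P z (chainStabilizer c.out.1) : ℤ) =
      ∑ β ∈ S, if β ⟨z, hz⟩ ≠ 0 then
        w c.out.1 * (nb red P β (chainStabilizer c.out.1) : ℤ) else 0 := by
    intro c
    rw [nz_eq red hS P hz c.out.2, Nat.cast_sum, Finset.mul_sum]
    refine Finset.sum_congr rfl fun β _ => ?_
    split_ifs
    · rfl
    · simp
  rw [Finset.sum_congr rfl fun c _ => h1 c, Finset.sum_comm]
  refine Finset.sum_congr rfl fun β _ => ?_
  by_cases h : β ⟨z, hz⟩ ≠ 0
  · simp only [if_pos h]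
    rw [finsum_eq_sum_of_fintype]
  · simp only [if_neg h]
    exact Finset.sum_const_zero

/-- the sum for a functional outside of `S` vanishes -/
theorem tot_nb_zero (hS : Pack red G p S) (P : ∀ H : Subgroup G, (H → ℂ) → Prop)
    (w : Set (Subgroup G) → ℤ) {β : CF G F → F} (hβ : β ∉ S) : tot p w (nb red P β) = 0 := by
  unfold tot
  rw [← finsum_zero (α := Quotient (chSetoid p (⊥ : Subgroup G)))]
  refine finsum_congr fun c => ?_
  have : IsEmpty {ϑ : chainStabilizer c.out.1 → ℂ // IsIrreducibleCharacter ϑ ∧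
      P (chainStabilizer c.out.1) ϑ ∧ bl red ϑ = β} := by
    constructor
    rintro ⟨ϑ, h1, h2, h3⟩
    exact hβ (h3 ▸ hS.chain _ c.out.2 ϑ h1)
  unfold nb
  rw [Nat.card_of_isEmpty, Nat.cast_zero, mul_zero]

/-- `P` is invariant under complex conjugation -/
def BarInv (P : ∀ H : Subgroup G, (H → ℂ) → Prop) : Prop :=
  ∀ (H : Subgroup G) (ϑ : H → ℂ), P H ϑ → P H (fun g => ϑ g⁻¹)

theorem nb_bar {P : ∀ H : Subgroup G, (H → ℂ) → Prop} (hP : BarInv P) (β : CF G F → F)
    (H : Subgroup G) : nb red P (bar β) H = nb red P β H := by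
  have : Fintype H := Fintype.ofFinite H
  refine card_bar (fun ϑ => P H ϑ ∧ bl red ϑ = bar β) (fun ϑ => P H ϑ ∧ bl red ϑ = β) ?_ ?_
  · rintro ϑ h ⟨h1, h2⟩
    exact ⟨hP H ϑ h1, by rw [bl_inv red h, h2, bar_bar]⟩
  · rintro ϑ h ⟨h1, h2⟩
    exact ⟨hP H ϑ h1, by rw [bl_inv red h, h2]⟩

theorem tot_bar {P : ∀ H : Subgroup G, (H → ℂ) → Prop} (hP : BarInv P)
    (w : Set (Subgroup G) → ℤ) (β : CF G F → F) :
    tot p w (nb red P (bar β)) = tot p w (nb red P β) := by
  have h : nb red P (bar β) = nb red P β := funext fun H => nb_bar red hP β H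
  rw [h]

/-- **a real central element whose sums are the sums of a block or their doubles** -/
theorem of_block [IsAlgClosed F] [Fact p.Prime] [CharP F p] (hp2 : p ≠ 2) (hS : Pack red G p S)
    {B : (G → F) → F} (hB : IsBlock B) :
    ∃ z : G → F, ∃ hz : IsClassFun z, st z = z ∧
      (∀ β ∈ S, β ⟨z, hz⟩ ≠ 0 → β = rs B ∨ β = bar (rs B)) ∧
      ∃ m : ℤ, m ≠ 0 ∧ (RealBlock B → m = 1) ∧
        ∀ (P : ∀ H : Subgroup G, (H → ℂ) → Prop), BarInv P → ∀ w : Set (Subgroup G) → ℤ,
          tot p w (nz red P z) = m * tot p w (nb red P (rs B)) := by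
  obtain ⟨y, hy, hy1, hy2⟩ := sep hB S hS.block
  have hsy : IsClassFun (st y) := st_class hy
  have hz : IsClassFun (y + st y) := by
    intro g x
    rw [Pi.add_apply, Pi.add_apply, hy g x, hsy g x]
  have hval : ∀ β ∈ S, β ⟨y + st y, hz⟩ = β ⟨y, hy⟩ + bar β ⟨y, hy⟩ := by
    intro β hβ
    obtain ⟨B', hB', rfl⟩ := hS.block β hβ
    exact hB'.add y (st y) hy hsy
  have hB0 : rs B ⟨y, hy⟩ ≠ 0 := hy1
  have h20 : (2 : F) ≠ 0 := two_ne hp2
  have hout : ∀ β ∈ S, β ⟨y + st y, hz⟩ ≠ 0 → β = rs B ∨ β = bar (rs B) := by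
    intro β hβ h
    by_contra hcon
    rw [not_or] at hcon
    apply h
    rw [hval β hβ, hy2 β hβ hcon.1, hy2 (bar β) (hS.bar β hβ) (fun e => hcon.2 (by
      rw [← e, bar_bar])), add_zero]
  refine ⟨y + st y, hz, ?_, hout, ?_⟩
  · funext x
    change y x⁻¹ + st y x⁻¹ = y x + st y x
    unfold st
    rw [inv_inv, add_comm]
  by_cases hreal : RealBlock B
  · have hb := real_block_iff.1 hreal
    refine ⟨1, one_ne_zero, fun _ => rfl, fun P hP w => ?_⟩
    rw [one_mul, tot_nz red hS P w hz]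
    by_cases hmem : rs B ∈ S
    · rw [Finset.sum_eq_single (rs B)]
      · rw [if_pos]
        rw [hval _ hmem, hb, ← two_mul]
        exact mul_ne_zero h20 hB0
      · intro β hβ hne
        rw [if_neg]
        intro h
        rcases hout β hβ h with e | e
        · exact hne e
        · exact hne (e.trans hb)
      · exact fun h => absurd hmem h
    · rw [tot_nb_zero red hS P w hmem]
      refine Finset.sum_eq_zero fun β hβ => ?_
      rw [if_neg]
      intro h
      rcases hout β hβ h with e | e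
      · exact hmem (e ▸ hβ)
      · exact hmem ((e.trans hb) ▸ hβ)
  · have hb : bar (rs B) ≠ rs B := fun h => hreal (real_block_iff.2 h)
    refine ⟨2, two_ne_zero, fun h => absurd h hreal, fun P hP w => ?_⟩
    rw [tot_nz red hS P w hz]
    by_cases hmem : rs B ∈ S
    · have hmem' : bar (rs B) ∈ S := hS.bar _ hmem
      have hz0 : ∑ β ∈ (S.erase (rs B)).erase (bar (rs B)),
          (if β ⟨y + st y, hz⟩ ≠ 0 then tot p w (nb red P β) else 0) = 0 := by
        refine Finset.sum_eq_zero fun β hβ => ?_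
        rw [Finset.mem_erase, Finset.mem_erase] at hβ
        rw [if_neg]
        intro h
        rcases hout β hβ.2.2 h with e | e
        · exact hβ.2.1 e
        · exact hβ.1 e
      have c1 : rs B ⟨y + st y, hz⟩ ≠ 0 := by
        rw [hval _ hmem, hy2 _ hmem' hb, add_zero]
        exact hB0
      have c2 : bar (rs B) ⟨y + st y, hz⟩ ≠ 0 := by
        rw [hval _ hmem', hy2 _ hmem' hb, bar_bar, zero_add]
        exact hB0
      rw [← Finset.add_sum_erase S _ hmem,
        ← Finset.add_sum_erase (S.erase (rs B)) _ (Finset.mem_erase.2 ⟨hb, hmem'⟩), hz0,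
        if_pos c1, if_pos c2, tot_bar red hP]
      ring
    · rw [tot_nb_zero red hS P w hmem, mul_zero]
      refine Finset.sum_eq_zero fun β hβ => ?_
      rw [if_neg]
      intro h
      rcases hout β hβ h with e | e
      · exact hmem (e ▸ hβ)
      · apply hmem
        have := hS.bar β hβ
        rwa [e, bar_bar] at this

end

end Pool.Agent.Q149.DB
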