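import Pool.Agent.Q149.WB.Loc
import Pool.Agent.Q90.WR.Daf

/-!
# Numbers of characters of a given defect with nonvanishing central value
-/

set_option autoImplicit false
set_option linter.unusedSectionVars false

open scoped BigOperators Classical

noncomputable section

namespace Pool.Agent.Q149.DB

open Pool.Agent.Y63.KR Pool.Agent.Helper884.IC Polynomial
open Pool.Agent.Q90.WR Pool.Agent.Q149.WA
open Pool.Agent.Y63.AWC (IsIrreducibleCharacter)
open Pool.Agent.Y63.NV (centralValue IsClassFun)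
open Pool.Agent.Y930.NV (Cf)
open Pool.Agent.Y286.NV (centralValue_comp irr_class)
open Pool.Agent.Q149.WB (sq Cf_sq epA cv_ep cv_ind cv_ext)

variable {F : Type} [Field F] (red : integralClosure ℤ ℂ →+* F)

/-- The character `χ` has `p`-defect `d`. -/
def HasDef (p d : ℕ) {H : Type} [Group H] (χ : H → ℂ) : Prop :=
  ∃ n : ℕ, χ 1 = (n : ℂ) ∧ n.factorization p + d = (Nat.card H).factorization p

theorem hasDef_iff {p d : ℕ} {H : Type} [Group H] [Fintype H] {χ : H → ℂ} (hχ : IsIrrChar χ) :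
    HasDef p d χ ↔ dfn p χ = d := by
  obtain ⟨m, hm0, hm⟩ := deg_pos hχ
  have h1 := fac_le (p := p) hχ hm
  rw [dfn_eq p hm]
  constructor
  · rintro ⟨n, hn, h⟩
    have : n = m := by exact_mod_cast hn.symm.trans hm
    subst this
    omega
  · intro h
    exact ⟨m, hm, by omega⟩

/-- the number of the irreducible characters of defect `d` whose reduced central character does not
vanish at `f` -/
def kn (p d : ℕ) {H : Type} [Group H] (f : H → F) : ℕ :=
  Nat.card {χ : H → ℂ // IsIrreducibleCharacter χ ∧ HasDef p d χ ∧ centralValue red χ f ≠ 0}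

theorem kn_card (p d : ℕ) {H : Type} [Group H] [Fintype H] (f : H → F) :
    kn red p d f = (((Irr H).filter fun χ => centralValue red χ f ≠ 0).filter
      fun χ => dfn p χ = d).card := by
  rw [Finset.filter_filter, ← card_filter_eq]
  unfold kn
  refine Nat.card_congr (Equiv.subtypeEquivRight fun χ => ?_)
  refine and_congr_right fun hχ => ?_
  rw [hasDef_iff (show IsIrrChar χ from hχ), and_comm]

/-- the generating function -/
def kp (p : ℕ) {H : Type} [Group H] (f : H → F) : ℚ[X] :=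
  ∑ d ∈ Finset.range ((Nat.card H).factorization p + 1), C (kn red p d f : ℚ) * X ^ d

theorem kp_coeff (p : ℕ) {H : Type} [Group H] (f : H → F) (d : ℕ) :
    (kp red p f).coeff d = kn red p d f := by
  unfold kp
  rw [finsetSum_coeff]
  simp only [coeff_C_mul_X_pow]
  rw [Finset.sum_ite_eq]
  split_ifs with h
  · rfl
  · rw [Finset.mem_range, not_lt] at h
    have : IsEmpty {χ : H → ℂ // IsIrreducibleCharacter χ ∧ HasDef p d χ ∧
        centralValue red χ f ≠ 0} := by
      constructor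
      rintro ⟨χ, _, ⟨n, _, h2⟩, _⟩
      omega
    unfold kn
    rw [Nat.card_of_isEmpty, Nat.cast_zero]

theorem kp_sum (p : ℕ) {H : Type} [Group H] [Fintype H] (f : H → F) :
    kp red p f = ∑ χ ∈ (Irr H).filter (fun χ => centralValue red χ f ≠ 0), X ^ dfn p χ := by
  ext d
  rw [kp_coeff, coeff_sum_X, kn_card]

theorem kn_congr (p d : ℕ) {H K : Type} [Group H] [Group K] [Finite H] [Finite K] (e : H ≃* K)
    (f : K → F) (hf : IsClassFun f) : kn red p d (fun x => f (e x)) = kn red p d f := by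
  unfold kn
  change Nat.card {χ : H → ℂ // IsIrrChar χ ∧ _} = Nat.card {χ : K → ℂ // IsIrrChar χ ∧ _}
  rw [card_transport e]
  refine Nat.card_congr (Equiv.subtypeEquivRight fun χ => ?_)
  refine and_congr_right fun hχ => ?_
  rw [centralValue_comp red e χ (irr_class hχ) f hf]
  have e1 : (fun g => χ (e g)) 1 = χ 1 := by simp
  unfold HasDef
  rw [e1, Nat.card_congr e.toEquiv]

theorem kp_congr (p : ℕ) {H K : Type} [Group H] [Group K] [Finite H] [Finite K] (e : H ≃* K)
    (f : K → F) (hf : IsClassFun f) : kp red p (fun x => f (e x)) = kp red p f := by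
  ext d
  rw [kp_coeff, kp_coeff, kn_congr red p d e f hf]

theorem kp_prod (p : ℕ) {H K : Type} [Group H] [Group K] [Finite H] [Finite K] {f : H → F}
    {g : K → F} (hf : IsClassFun f) (hg : IsClassFun g) :
    kp red p (epA f g) = kp red p f * kp red p g := by
  have := Fintype.ofFinite H
  have := Fintype.ofFinite K
  rw [kp_sum, kp_sum, kp_sum, Finset.sum_filter, Finset.sum_filter, Finset.sum_filter,
    sum_Irr_prod, Finset.sum_mul_sum, ← Finset.sum_product']
  refine Finset.sum_congr rfl fun t ht => ?_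
  rw [Finset.mem_product, mem_Irr, mem_Irr] at ht
  have h1 : centralValue red (box t.1 t.2) (epA f g) =
      centralValue red t.1 f * centralValue red t.2 g := cv_ep red ht.1 ht.2 hf hg
  rw [h1, dfn_box ht.1 ht.2, pow_add]
  by_cases c1 : centralValue red t.1 f ≠ 0
  · by_cases c2 : centralValue red t.2 g ≠ 0
    · rw [if_pos (mul_ne_zero c1 c2), if_pos c1, if_pos c2]
    · rw [if_neg (fun h => c2 (right_ne_zero_of_mul h)), if_neg c2, mul_zero]
  · rw [if_neg (fun h => c1 (left_ne_zero_of_mul h)), if_neg c1, zero_mul]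

theorem two_ne {p : ℕ} [hp : Fact p.Prime] [CharP F p] (hp2 : p ≠ 2) : (2 : F) ≠ 0 := by
  intro h
  have h1 : ((2 : ℕ) : F) = 0 := by exact_mod_cast h
  rw [CharP.cast_eq_zero_iff F p] at h1
  exact hp2 ((Nat.prime_dvd_prime_iff_eq hp.out Nat.prime_two).mp h1)

theorem kp_wr {p : ℕ} [hp : Fact p.Prime] [CharP F p] (hp2 : p ≠ 2) {H : Type} [Group H]
    [Finite H] {f : H → F} (hf : IsClassFun f) :
    2 * kp red p (sq f) = kp red p f ^ 2 + 3 * expand ℚ 2 (kp red p f) := by
  have := Fintype.ofFinite H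
  have h20 : (2 : F) ≠ 0 := two_ne hp2
  set S := (Irr H).filter (fun χ => centralValue red χ f ≠ 0) with hS
  have e1 : expand ℚ 2 (kp red p f) = ∑ θ ∈ S, X ^ (2 * dfn p θ) := by
    rw [kp_sum, map_sum]
    refine Finset.sum_congr rfl fun θ _ => ?_
    rw [map_pow, expand_X, ← pow_mul]
  have e2 : kp red p f ^ 2 = ∑ t ∈ S.offDiag, X ^ (dfn p t.1 + dfn p t.2) +
      ∑ θ ∈ S, X ^ (2 * dfn p θ) := by
    rw [kp_sum, pow_two, Finset.sum_mul_sum, ← Finset.sum_product',
      ← Finset.diag_union_offDiag, Finset.sum_union (Finset.disjoint_diag_offDiag _),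
      Finset.sum_diag, add_comm]
    congr 1
    · exact Finset.sum_congr rfl fun t _ => (pow_add _ _ _).symm
    · exact Finset.sum_congr rfl fun t _ => by rw [← pow_add, two_mul]
  rw [e1, e2]
  ext d
  have h := count (G := H) (fun χ => centralValue red χ (sq f) ≠ 0 ∧ dfn p χ = d)
  have h1 : ∀ dd : DecidablePred (fun t : (H → ℂ) × (H → ℂ) =>
      centralValue red (ind2 t.1 t.2) (sq f) ≠ 0 ∧ dfn p (ind2 t.1 t.2) = d),
      @Finset.filter _ _ dd ((Irr H).offDiag) =
        S.offDiag.filter (fun t => dfn p t.1 + dfn p t.2 = d) := by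
    intro dd
    ext ⟨θ, ψ⟩
    simp only [hS, Finset.mem_filter, Finset.mem_offDiag, mem_Irr]
    constructor
    · rintro ⟨⟨a1, a2, hne⟩, a3, a4⟩
      rw [cv_ind red h20 a1 a2 hne hf] at a3
      rw [dfn_ind2 hp2 a1 a2] at a4
      exact ⟨⟨⟨a1, left_ne_zero_of_mul a3⟩, ⟨a2, right_ne_zero_of_mul a3⟩, hne⟩, a4⟩
    · rintro ⟨⟨⟨a1, a3⟩, ⟨a2, a5⟩, hne⟩, a4⟩
      refine ⟨⟨a1, a2, hne⟩, ?_, ?_⟩
      · rw [cv_ind red h20 a1 a2 hne hf]
        exact mul_ne_zero a3 a5
      · rw [dfn_ind2 hp2 a1 a2]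
        exact a4
  have h2 : ∀ ε : ℂ, ε * ε = 1 → ∀ dd : DecidablePred (fun θ : H → ℂ =>
      centralValue red (ext2 ε θ) (sq f) ≠ 0 ∧ dfn p (ext2 ε θ) = d),
      @Finset.filter _ _ dd (Irr H) = S.filter (fun θ => 2 * dfn p θ = d) := by
    intro ε hε dd
    ext θ
    simp only [hS, Finset.mem_filter, mem_Irr]
    constructor
    · rintro ⟨a1, a3, a4⟩
      rw [cv_ext red h20 a1 hε hf, mul_self_ne_zero] at a3
      rw [dfn_ext2 hp2 a1] at a4
      exact ⟨⟨a1, a3⟩, a4⟩
    · rintro ⟨⟨a1, a3⟩, a4⟩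
      refine ⟨a1, ?_, ?_⟩
      · rw [cv_ext red h20 a1 hε hf, mul_self_ne_zero]
        exact a3
      · rw [dfn_ext2 hp2 a1]
        exact a4
  rw [h1, h2 1 (by norm_num), h2 (-1) (by norm_num)] at h
  replace h : 2 * kn red p d (sq f) =
      (S.offDiag.filter (fun t => dfn p t.1 + dfn p t.2 = d)).card +
        2 * (S.filter (fun θ => 2 * dfn p θ = d)).card +
        2 * (S.filter (fun θ => 2 * dfn p θ = d)).card := by
    rw [kn_card, Finset.filter_filter]
    convert h
  have h3 : (2 * kp red p (sq f)).coeff d = 2 * (kn red p d (sq f) : ℚ) := by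
    rw [← kp_coeff]
    exact coeff_ofNat_mul
  have h4 : ∀ P : ℚ[X], (3 * P).coeff d = 3 * P.coeff d := fun P => coeff_ofNat_mul
  rw [h3, coeff_add, coeff_add, h4, coeff_sum_X, coeff_sum_X]
  have h5 : (2 * (kn red p d (sq f) : ℚ)) = ((2 * kn red p d (sq f) : ℕ) : ℚ) := by
    push_cast; rfl
  rw [h5, h]
  push_cast
  ring

end Pool.Agent.Q149.DB
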