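import Pool.Agent.Q149.DB.Par

/-!
# Duals of irreducible representations over arbitrary fields
-/

set_option autoImplicit false
set_option linter.unusedSectionVars false

open scoped BigOperators Classical

noncomputable section

namespace Pool.Agent.Q149.DB

open Pool.Agent.Y63.NV (centralValue IsClassFun IsBlock conv IsIrrTrace)

variable {F : Type} [Field F]

theorem dual_irr {G V : Type} [Group G] [AddCommGroup V] [Module F V] [FiniteDimensional F V]
    (ρ : Representation F G V) (h : ρ.IsIrreducible) : ρ.dual.IsIrreducible := by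
  have h1 : ∀ U : Submodule F V, (∀ g v, v ∈ U → ρ g v ∈ U) → U = ⊥ ∨ U = ⊤ := by
    intro U hU
    rcases h.eq_bot_or_eq_top ⟨U, fun g v hv => hU g v hv⟩ with h2 | h2
    · exact Or.inl (congrArg Subrepresentation.toSubmodule h2)
    · exact Or.inr (congrArg Subrepresentation.toSubmodule h2)
  have hnt : ∃ v : V, v ≠ 0 := by
    by_contra hcon
    push Not at hcon
    apply (bot_ne_top (α := Subrepresentation ρ))
    apply Subrepresentation.toSubmodule_injective
    change (⊥ : Submodule F V) = ⊤
    symm
    rw [eq_bot_iff]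
    intro v _
    rw [Submodule.mem_bot]
    exact hcon v
  have key : ∀ W : Submodule F (Module.Dual F V), (∀ g f, f ∈ W → ρ.dual g f ∈ W) →
      W = ⊥ ∨ W = ⊤ := by
    intro W hW
    have h2 : W.dualCoannihilator.dualAnnihilator = W :=
      Subspace.dualCoannihilator_dualAnnihilator_eq
    rcases h1 W.dualCoannihilator (fun g v hv => by
      rw [Submodule.mem_dualCoannihilator] at hv ⊢
      intro f hf
      have h3 := hv _ (hW g⁻¹ f hf)
      rw [Representation.dual_apply, inv_inv] at h3
      exact h3) with h4 | h4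
    · right
      rw [← h2, h4, Submodule.dualAnnihilator_bot]
    · left
      rw [← h2, h4, Submodule.dualAnnihilator_top]
  refine { exists_pair_ne := ⟨⊥, ⊤, ?_⟩, eq_bot_or_eq_top := fun W => ?_ }
  · intro e
    obtain ⟨v, hv⟩ := hnt
    apply hv
    rw [← Module.forall_dual_apply_eq_zero_iff F v]
    intro f
    have h5 : f ∈ (⊤ : Subrepresentation ρ.dual).toSubmodule := Submodule.mem_top
    rw [← e] at h5
    have h6 : f = 0 := (Submodule.mem_bot F).1 h5
    rw [h6]
    rfl
  · rcases key W.toSubmodule (fun g f hf => W.apply_mem_toSubmodule g hf) with h6 | h6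
    · exact Or.inl (Subrepresentation.toSubmodule_injective h6)
    · exact Or.inr (Subrepresentation.toSubmodule_injective h6)

theorem irrTrace_inv {G : Type} [Group G] {φ : G → F} (h : IsIrrTrace φ) :
    IsIrrTrace (fun g => φ g⁻¹) := by
  obtain ⟨V, _, _, _, ρ, hρ, rfl⟩ := h
  exact ⟨Module.Dual F V, inferInstance, inferInstance, inferInstance, ρ.dual, dual_irr ρ hρ,
    funext fun g => (Representation.char_dual ρ g).symm⟩

theorem irrTrace_class {G : Type} [Group G] {φ : G → F} (h : IsIrrTrace φ) (a b : G) :
    φ (a * b) = φ (b * a) := by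
  obtain ⟨V, _, _, _, ρ, hρ, rfl⟩ := h
  exact Representation.char_mul_comm ρ b a

/-- convolution and inversion -/
theorem conv_inv {G : Type} [Group G] {φ : G → F} (h : IsIrrTrace φ) (f : G → F) (x : G) :
    ∑ᶠ g : G, f g * φ (g * x)⁻¹ = ∑ᶠ g : G, st f g * φ (g * x⁻¹) := by
  rw [← finsum_comp_equiv (Equiv.inv G)]
  refine finsum_congr fun g => ?_
  simp only [Equiv.inv_apply, st, mul_inv_rev, inv_inv]
  rw [irrTrace_class h x⁻¹ g]

end Pool.Agent.Q149.DB
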