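import Pool.Agent.Q149.DB.Dual

/-!
# Simple modules and weights with a property, for central elements and for blocks
-/

set_option autoImplicit false
set_option linter.unusedSectionVars false

open scoped BigOperators Classical

noncomputable section

namespace Pool.Agent.Q149.DB

open Pool.Agent.Helper884.IC Pool.Agent.Q90.WR
open Pool.Agent.Y63.NV (centralValue IsClassFun IsBlock conv IsIrrTrace IsWt numIrrBlock numWtBlock
  schur' wblk' BAWC)
open Pool.Agent.Y63.NV.B48B (card_fib CF rs)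
open Pool.Agent.Y63.AWC (IsIrreducibleCharacter pSubgroupSetoid)
open Pool.Agent.Q149.WB (sq sep rs_eq lst nws wst numWts lst_wr wst_wr lst_le wst_le)

variable {F : Type} [Field F] (red : integralClosure ℤ ℂ →+* F)

section

variable {G : Type} [Group G]

/-- all simple modules -/
def LT (_ : G → F) : Prop := True

/-- the self-dual simple modules -/
def LR (φ : G → F) : Prop := ∀ g, φ g⁻¹ = φ g

/-- all weights -/
def WT (Q : Subgroup G) (_ : Subgroup.normalizer (Q : Set G) → ℂ) : Prop := True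

/-- the real weights -/
def WR (Q : Subgroup G) (χ : Subgroup.normalizer (Q : Set G) → ℂ) : Prop := ∀ g, (χ g).im = 0

/-- the number of the simple modules with property `P` with nonvanishing central value at `z` -/
def lz (P : (G → F) → Prop) (z : G → F) : ℕ :=
  Nat.card {φ : G → F // IsIrrTrace φ ∧ P φ ∧ ∃ x, ∑ᶠ g : G, z g * φ (g * x) ≠ 0}

/-- the number of the simple modules with property `P` in `β` -/
def lb (P : (G → F) → Prop) (β : CF G F → F) : ℕ :=
  Nat.card {φ : G → F // IsIrrTrace φ ∧ P φ ∧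
    ∀ (f : CF G F) (x : G), ∑ᶠ g : G, f.1 g * φ (g * x) = β f * φ x}

/-- the same for weights with first component `Q` -/
def wgz1 (p : ℕ) (P : ∀ Q : Subgroup G, (Subgroup.normalizer (Q : Set G) → ℂ) → Prop) (z : G → F)
    (Q : Subgroup G) : ℕ :=
  Nat.card {χ : Subgroup.normalizer (Q : Set G) → ℂ //
    IsWt p (Q.subgroupOf (Subgroup.normalizer (Q : Set G))) χ ∧ P Q χ ∧
    centralValue red χ (fun x => z x) ≠ 0}

/-- the same for weights with first component `Q` -/
def wgb1 (p : ℕ) (P : ∀ Q : Subgroup G, (Subgroup.normalizer (Q : Set G) → ℂ) → Prop)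
    (β : CF G F → F) (Q : Subgroup G) : ℕ :=
  Nat.card {χ : Subgroup.normalizer (Q : Set G) → ℂ //
    IsWt p (Q.subgroupOf (Subgroup.normalizer (Q : Set G))) χ ∧ P Q χ ∧ bl red χ = β}

/-- the sum over the classes of `p`-subgroups -/
def wgz (p : ℕ) (P : ∀ Q : Subgroup G, (Subgroup.normalizer (Q : Set G) → ℂ) → Prop)
    (z : G → F) : ℕ := ∑ᶠ c : Quotient (pSubgroupSetoid p G), wgz1 red p P z c.out.1

/-- the sum over the classes of `p`-subgroups -/
def wgb (p : ℕ) (P : ∀ Q : Subgroup G, (Subgroup.normalizer (Q : Set G) → ℂ) → Prop)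
    (β : CF G F → F) : ℕ := ∑ᶠ c : Quotient (pSubgroupSetoid p G), wgb1 red p P β c.out.1

variable (G) in
/-- a finite set of functionals that contains those of all simple modules and weights -/
structure Pak (p : ℕ) (S : Finset (CF G F → F)) : Prop where
  block : ∀ β ∈ S, ∃ B, IsBlock B ∧ rs B = β
  bar : ∀ β ∈ S, bar β ∈ S
  simple : ∀ φ : G → F, IsIrrTrace φ → ∃ β ∈ S,
    ∀ (f : CF G F) (x : G), ∑ᶠ g : G, f.1 g * φ (g * x) = β f * φ x
  weight : ∀ Q : Subgroup G, IsPGroup p Q → ∀ χ : Subgroup.normalizer (Q : Set G) → ℂ,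
    IsWt p (Q.subgroupOf (Subgroup.normalizer (Q : Set G))) χ → bl red χ ∈ S

theorem irrTrace_ne {φ : G → F} [Finite G] [IsAlgClosed F] (h : IsIrrTrace φ) :
    ∃ x, φ x ≠ 0 := (schur' F G φ h).1

theorem bar_block {B : (G → F) → F} (hB : IsBlock B) [Finite G] :
    ∃ B' : (G → F) → F, IsBlock B' ∧ rs B' = bar (rs B) := by
  have : Fintype G := Fintype.ofFinite G
  refine ⟨fun f => B (st f), ⟨?_, ?_, ?_, ?_⟩, rfl⟩
  · intro f g hf hg
    exact hB.add _ _ (st_class hf) (st_class hg)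
  · intro a f hf
    exact hB.smul a _ (st_class hf)
  · have : (st (Pi.single 1 1 : G → F)) = Pi.single 1 1 := by
      funext x
      unfold st
      by_cases h : x = 1
      · subst h
        rw [inv_one]
      · rw [Pi.single_eq_of_ne h, Pi.single_eq_of_ne (fun h' => h (inv_eq_one.1 h'))]
    change B (st (Pi.single 1 1)) = 1
    rw [this, hB.one]
  · intro f g hf hg
    have : st (conv f g) = conv (st f) (st g) := by
      funext x
      unfold st conv
      rw [← finsum_comp_equiv (Equiv.inv G)]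
      have h1 : ∀ y : G, f (Equiv.inv G y) * g ((Equiv.inv G y)⁻¹ * x⁻¹) =
          f y⁻¹ * g (y⁻¹ * x)⁻¹ := by
        intro y
        simp only [Equiv.inv_apply, inv_inv, mul_inv_rev]
        congr 1
        have := hg y⁻¹ (y * x⁻¹)
        rw [← this]
        congr 1
        group
      exact finsum_congr h1
    change B (st (conv f g)) = B (st f) * B (st g)
    rw [this, hB.mul _ _ (st_class hf) (st_class hg)]

/-- conjugation of the functional of a simple module -/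
theorem simple_bar {φ : G → F} (h : IsIrrTrace φ) {β : CF G F → F}
    (hβ : ∀ (f : CF G F) (x : G), ∑ᶠ g : G, f.1 g * φ (g * x) = β f * φ x)
    (f : CF G F) (x : G) : ∑ᶠ g : G, f.1 g * φ (g * x)⁻¹ = bar β f * φ x⁻¹ := by
  rw [conv_inv h f.1 x]
  exact hβ ⟨st f.1, st_class f.2⟩ x⁻¹

theorem wt_inv {N : Type} [Group N] [Finite N] {p : ℕ} {Q : Subgroup N} [hQ : Q.Normal]
    {χ : N → ℂ} (h : IsWt p Q χ) : IsWt p Q (fun g => χ g⁻¹) := by
  have : Fintype N := Fintype.ofFinite N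
  refine ⟨irr_inv h.irr, fun q hq x => ?_, ?_⟩
  · change χ (q * x)⁻¹ = χ x⁻¹
    have h1 := h.inflated (x⁻¹ * q⁻¹ * x) (by
      have := hQ.conj_mem q⁻¹ (Q.inv_mem hq) x⁻¹
      simpa using this) x⁻¹
    rw [← h1]
    congr 1
    group
  · obtain ⟨n, hn, h2⟩ := h.defectZero
    exact ⟨n, by simpa using hn, h2⟩

/-- the blocks -/
theorem exists_pak (p : ℕ) [hp : Fact p.Prime] [IsAlgClosed F] [CharP F p] [Finite G] :
    ∃ S : Finset (CF G F → F), Pak red G p S := by
  have : Fintype G := Fintype.ofFinite G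
  have h0 := Pool.Agent.Y914.NV.irr
  have h1 := schur'
  have h2 := wblk'
  let X : Type := {φ : G → F // IsIrrTrace φ}
  have hX : Finite X := (h0 F G).1.to_subtype
  have hBX : ∀ φ : X, (∃ x, φ.1 x ≠ 0) ∧ ∃ B : (G → F) → F, IsBlock B ∧
      ∀ f : G → F, IsClassFun f → ∀ x, ∑ᶠ g, f g * φ.1 (g * x) = B f * φ.1 x :=
    fun φ => h1 F G φ.1 φ.2
  choose hne BX hBX1 hBX2 using hBX
  let P : Type := {Q : Subgroup G // IsPGroup p Q}
  have hP : Finite P := inferInstanceAs (Finite {Q : Subgroup G // IsPGroup p Q})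
  have : Fintype P := Fintype.ofFinite P
  let Y : P → Type := fun Q => {χ : Subgroup.normalizer (Q.1 : Set G) → ℂ //
    IsWt p (Q.1.subgroupOf (Subgroup.normalizer (Q.1 : Set G))) χ}
  have hY : ∀ Q, Finite (Y Q) := fun Q =>
    ((h0 ℂ (Subgroup.normalizer (Q.1 : Set G))).1.subset (fun χ h => h.irr)).to_subtype
  let BY : ∀ Q : P, Y Q → (G → F) → F := fun Q χ f => centralValue red χ.1 (fun x => f x)
  have hBY : ∀ Q χ, IsBlock (BY Q χ) := fun Q χ => h2 p F red G Q.1 χ.1 Q.2 χ.2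
  have hfX : Fintype X := Fintype.ofFinite X
  have hfY : ∀ Q, Fintype (Y Q) := fun Q => Fintype.ofFinite (Y Q)
  let rX : X → (CF G F → F) := fun φ => rs (BX φ)
  let rY : ∀ Q, Y Q → (CF G F → F) := fun Q χ => rs (BY Q χ)
  have hrY : ∀ Q χ, rY Q χ = bl red χ.1 := fun Q χ => rfl
  let S0 : Finset (CF G F → F) := Finset.univ.image rX ∪
    (Finset.univ : Finset P).biUnion (fun Q => Finset.univ.image (rY Q))
  let S : Finset (CF G F → F) := S0 ∪ S0.image bar
  have hSX : ∀ φ, rX φ ∈ S := fun φ => Finset.mem_union_left _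
    (Finset.mem_union_left _ (Finset.mem_image_of_mem _ (Finset.mem_univ _)))
  have hSY : ∀ Q χ, rY Q χ ∈ S := fun Q χ => Finset.mem_union_left _
    (Finset.mem_union_right _ (Finset.mem_biUnion.2 ⟨Q, Finset.mem_univ _,
      Finset.mem_image_of_mem _ (Finset.mem_univ _)⟩))
  have hS0 : ∀ β ∈ S0, ∃ B : (G → F) → F, IsBlock B ∧ rs B = β := by
    intro β hβ
    rcases Finset.mem_union.1 hβ with h | h
    · obtain ⟨φ, -, rfl⟩ := Finset.mem_image.1 h
      exact ⟨BX φ, hBX1 φ, rfl⟩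
    · obtain ⟨Q, -, h⟩ := Finset.mem_biUnion.1 h
      obtain ⟨χ, -, rfl⟩ := Finset.mem_image.1 h
      exact ⟨BY Q χ, hBY Q χ, rfl⟩
  refine ⟨S, ?_, ?_, ?_, ?_⟩
  · intro β hβ
    rcases Finset.mem_union.1 hβ with h | h
    · exact hS0 β h
    · obtain ⟨γ, hγ, rfl⟩ := Finset.mem_image.1 h
      obtain ⟨B, hB, rfl⟩ := hS0 γ hγ
      exact bar_block hB
  · intro β hβ
    rcases Finset.mem_union.1 hβ with h | h
    · exact Finset.mem_union_right _ (Finset.mem_image_of_mem _ h)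
    · obtain ⟨γ, hγ, rfl⟩ := Finset.mem_image.1 h
      rw [bar_bar]
      exact Finset.mem_union_left _ hγ
  · intro φ hφ
    exact ⟨rX ⟨φ, hφ⟩, hSX _, fun f x => hBX2 ⟨φ, hφ⟩ f.1 f.2 x⟩
  · intro Q hQ χ hχ
    exact hSY ⟨Q, hQ⟩ ⟨χ, hχ⟩

section pak

variable {p : ℕ} [hp : Fact p.Prime] [IsAlgClosed F] [CharP F p] [Finite G]
  {S : Finset (CF G F → F)}

theorem lz_eq (hS : Pak red G p S) (P : (G → F) → Prop) {z : G → F} (hz : IsClassFun z) :
    lz P z = ∑ β ∈ S, if β ⟨z, hz⟩ ≠ 0 then lb P β else 0 := by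
  let X : Type := {φ : G → F // IsIrrTrace φ ∧ P φ}
  have hX : Finite X := ((Pool.Agent.Y914.NV.irr F G).1.subset
    (fun φ (h : IsIrrTrace φ ∧ P φ) => h.1)).to_subtype
  have h1 : ∀ φ : X, ∃ β ∈ S, ∀ (f : CF G F) (x : G),
      ∑ᶠ g : G, f.1 g * φ.1 (g * x) = β f * φ.1 x := fun φ => hS.simple φ.1 φ.2.1
  choose r hr hr2 using h1
  have h2 := card_fib r S hr (fun β => β ⟨z, hz⟩ ≠ 0)
  have h3 : lz P z = Nat.card {φ : X // r φ ⟨z, hz⟩ ≠ 0} := by
    unfold lz
    refine Nat.card_congr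
      { toFun := fun φ => ⟨⟨φ.1, φ.2.1, φ.2.2.1⟩, ?_⟩
        invFun := fun φ => ⟨φ.1.1, φ.1.2.1, φ.1.2.2, ?_⟩
        left_inv := fun φ => rfl
        right_inv := fun φ => rfl }
    · obtain ⟨x, hx⟩ := φ.2.2.2
      have h4 := hr2 ⟨φ.1, φ.2.1, φ.2.2.1⟩ ⟨z, hz⟩ x
      intro h5
      apply hx
      rw [h4]
      exact mul_eq_zero_of_left h5 _
    · obtain ⟨x, hx⟩ := irrTrace_ne φ.1.2.1
      refine ⟨x, ?_⟩
      rw [hr2 φ.1 ⟨z, hz⟩ x]
      exact mul_ne_zero φ.2 hx
  have h4 : ∀ β, lb P β = Nat.card {φ : X // r φ = β} := by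
    intro β
    unfold lb
    refine Nat.card_congr
      { toFun := fun φ => ⟨⟨φ.1, φ.2.1, φ.2.2.1⟩, ?_⟩
        invFun := fun φ => ⟨φ.1.1, φ.1.2.1, φ.1.2.2, ?_⟩
        left_inv := fun φ => rfl
        right_inv := fun φ => rfl }
    · funext f
      obtain ⟨x, hx⟩ := irrTrace_ne φ.2.1
      exact mul_right_cancel₀ hx ((hr2 ⟨φ.1, φ.2.1, φ.2.2.1⟩ f x).symm.trans (φ.2.2.2 f x))
    · intro f x
      exact (hr2 φ.1 f x).trans (by rw [show r φ.1 f = β f from congrFun φ.2 f])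
  rw [h3]
  refine h2.trans (Finset.sum_congr rfl fun β _ => ?_)
  by_cases h : β ⟨z, hz⟩ ≠ 0
  · rw [if_pos h, if_pos h, h4]
  · rw [if_neg h, if_neg h]

theorem wgz_eq (hS : Pak red G p S)
    (P : ∀ Q : Subgroup G, (Subgroup.normalizer (Q : Set G) → ℂ) → Prop) {z : G → F}
    (hz : IsClassFun z) : wgz red p P z = ∑ β ∈ S, if β ⟨z, hz⟩ ≠ 0 then wgb red p P β else 0 := by
  have hfQ : Fintype (Quotient (pSubgroupSetoid p G)) := Fintype.ofFinite _
  have key : ∀ Q : Subgroup G, IsPGroup p Q → wgz1 red p P z Q =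
      ∑ β ∈ S, if β ⟨z, hz⟩ ≠ 0 then wgb1 red p P β Q else 0 := by
    intro Q hQ
    let Y : Type := {χ : Subgroup.normalizer (Q : Set G) → ℂ //
      IsWt p (Q.subgroupOf (Subgroup.normalizer (Q : Set G))) χ ∧ P Q χ}
    have hY : Finite Y := ((Pool.Agent.Y914.NV.irr ℂ (Subgroup.normalizer (Q : Set G))).1.subset
      (fun χ (h : IsWt p (Q.subgroupOf (Subgroup.normalizer (Q : Set G))) χ ∧ P Q χ) =>
        h.1.irr)).to_subtype
    have h1 := card_fib (fun χ : Y => bl red χ.1) S (fun χ => hS.weight Q hQ χ.1 χ.2.1)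
      (fun β => β ⟨z, hz⟩ ≠ 0)
    have h2 : wgz1 red p P z Q = Nat.card {χ : Y // bl red χ.1 ⟨z, hz⟩ ≠ 0} :=
      Nat.card_congr
        { toFun := fun χ => ⟨⟨χ.1, χ.2.1, χ.2.2.1⟩, χ.2.2.2⟩
          invFun := fun χ => ⟨χ.1.1, χ.1.2.1, χ.1.2.2, χ.2⟩
          left_inv := fun _ => rfl
          right_inv := fun _ => rfl }
    have h3 : ∀ β, wgb1 red p P β Q = Nat.card {χ : Y // bl red χ.1 = β} := fun β =>
      Nat.card_congr
        { toFun := fun χ => ⟨⟨χ.1, χ.2.1, χ.2.2.1⟩, χ.2.2.2⟩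
          invFun := fun χ => ⟨χ.1.1, χ.1.2.1, χ.1.2.2, χ.2⟩
          left_inv := fun _ => rfl
          right_inv := fun _ => rfl }
    rw [h2]
    refine h1.trans (Finset.sum_congr rfl fun β _ => ?_)
    by_cases h : β ⟨z, hz⟩ ≠ 0
    · rw [if_pos h, if_pos h, h3]
    · rw [if_neg h, if_neg h]
  unfold wgz
  rw [finsum_eq_sum_of_fintype, Finset.sum_congr rfl fun d _ => key d.out.1 d.out.2,
    Finset.sum_comm]
  refine Finset.sum_congr rfl fun β _ => ?_
  by_cases h : β ⟨z, hz⟩ ≠ 0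
  · simp only [if_pos h]
    unfold wgb
    rw [finsum_eq_sum_of_fintype]
  · simp only [if_neg h]
    exact Finset.sum_const_zero

end pak

end

end Pool.Agent.Q149.DB
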