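import Pool.Agent.Q149.DB.Nav

/-!
# Parity for the real blocks decides the blockwise weight conjecture
-/

set_option autoImplicit false
set_option linter.unusedSectionVars false

open scoped BigOperators Classical

noncomputable section

namespace Pool.Agent.Q149.DB

open Pool.Agent.Helper884.IC Pool.Agent.Q90.WR
open Pool.Agent.Y63.NV (centralValue IsClassFun IsBlock conv IsIrrTrace IsWt numIrrBlock numWtBlock
  schur' wblk' BAWC)
open Pool.Agent.Y63.NV.B48B (card_fib CF rs)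
open Pool.Agent.Y63.AWC (IsIrreducibleCharacter pSubgroupSetoid)
open Pool.Agent.Q149.WB (sq sep rs_eq lst nws wst numWts lst_wr wst_wr lst_le wst_le)

variable {F : Type} [Field F] (red : integralClosure ℤ ℂ →+* F)

section

variable {G : Type} [Group G] [Finite G]

/-! ### involutions -/

theorem card_dual_mod [IsAlgClosed F] (Q : (G → F) → Prop)
    (hQ : ∀ φ, IsIrrTrace φ → Q φ → Q (fun g => φ g⁻¹)) :
    Nat.card {φ : G → F // IsIrrTrace φ ∧ Q φ} ≡
      Nat.card {φ : G → F // IsIrrTrace φ ∧ Q φ ∧ LR φ} [MOD 2] := by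
  have hfin : Finite {φ : G → F // IsIrrTrace φ ∧ Q φ} :=
    ((Pool.Agent.Y914.NV.irr F G).1.subset (fun φ (h : IsIrrTrace φ ∧ Q φ) => h.1)).to_subtype
  let f : {φ : G → F // IsIrrTrace φ ∧ Q φ} → {φ : G → F // IsIrrTrace φ ∧ Q φ} := fun φ =>
    ⟨fun g => φ.1 g⁻¹, irrTrace_inv φ.2.1, hQ φ.1 φ.2.1 φ.2.2⟩
  have h := invol_mod f (by
    intro φ
    apply Subtype.ext
    funext g
    change φ.1 g⁻¹⁻¹ = φ.1 g
    rw [inv_inv])
  refine h.trans ?_
  rw [show Nat.card {x // f x = x} = Nat.card {φ : G → F // IsIrrTrace φ ∧ Q φ ∧ LR φ} from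
    Nat.card_congr
      { toFun := fun x => ⟨x.1.1, x.1.2.1, x.1.2.2, fun g => congrFun (congrArg Subtype.val x.2) g⟩
        invFun := fun y => ⟨⟨y.1, y.2.1, y.2.2.1⟩, Subtype.ext (funext fun g => y.2.2.2 g)⟩
        left_inv := fun x => rfl
        right_inv := fun y => rfl }]

theorem lz_mod [IsAlgClosed F] {z : G → F} (hr : st z = z) : lz LT z ≡ lz LR z [MOD 2] := by
  have h := card_dual_mod (F := F) (G := G)
    (fun φ => LT φ ∧ ∃ x, ∑ᶠ g : G, z g * φ (g * x) ≠ 0) (by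
      rintro φ h ⟨-, x, hx⟩
      refine ⟨trivial, x⁻¹, ?_⟩
      rw [conv_inv h z x⁻¹, hr, inv_inv]
      exact hx)
  refine h.trans ?_
  have e : Nat.card {φ : G → F // IsIrrTrace φ ∧ (LT φ ∧ ∃ x, ∑ᶠ g : G, z g * φ (g * x) ≠ 0) ∧
      LR φ} = lz LR z :=
    Nat.card_congr (Equiv.subtypeEquivRight fun φ => and_congr_right fun _ =>
      ⟨fun h => ⟨h.2, h.1.2⟩, fun h => ⟨⟨trivial, h.2⟩, h.1⟩⟩)
  rw [e]

theorem lb_mod [IsAlgClosed F] {β : CF G F → F} (hr : bar β = β) :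
    lb LT β ≡ lb LR β [MOD 2] := by
  have h := card_dual_mod (F := F) (G := G)
    (fun φ => LT φ ∧ ∀ (f : CF G F) (x : G), ∑ᶠ g : G, f.1 g * φ (g * x) = β f * φ x) (by
      rintro φ h ⟨-, h1⟩
      refine ⟨trivial, fun f x => ?_⟩
      have := simple_bar h h1 f x
      rwa [hr] at this)
  refine h.trans ?_
  have e : Nat.card {φ : G → F // IsIrrTrace φ ∧
      (LT φ ∧ ∀ (f : CF G F) (x : G), ∑ᶠ g : G, f.1 g * φ (g * x) = β f * φ x) ∧ LR φ} =
      lb LR β :=
    Nat.card_congr (Equiv.subtypeEquivRight fun φ => and_congr_right fun _ =>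
      ⟨fun h => ⟨h.2, h.1.2⟩, fun h => ⟨⟨trivial, h.2⟩, h.1⟩⟩)
  rw [e]

theorem lb_bar [IsAlgClosed F] (β : CF G F → F) : lb LT (bar β) = lb LT β := by
  unfold lb
  refine Nat.card_congr
    { toFun := fun φ => ⟨fun g => φ.1 g⁻¹, irrTrace_inv φ.2.1, trivial, ?_⟩
      invFun := fun φ => ⟨fun g => φ.1 g⁻¹, irrTrace_inv φ.2.1, trivial, ?_⟩
      left_inv := fun φ => Subtype.ext (funext fun g => by
        change φ.1 g⁻¹⁻¹ = φ.1 g
        rw [inv_inv])
      right_inv := fun φ => Subtype.ext (funext fun g => by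
        change φ.1 g⁻¹⁻¹ = φ.1 g
        rw [inv_inv]) }
  · intro f x
    have := simple_bar φ.2.1 φ.2.2.2 f x
    rwa [bar_bar] at this
  · exact simple_bar φ.2.1 φ.2.2.2

theorem lb_real_zero [IsAlgClosed F] {β : CF G F → F} (h : bar β ≠ β) : lb LR β = 0 := by
  unfold lb
  rw [Nat.card_eq_zero]
  left
  constructor
  rintro ⟨φ, h1, h2, h3⟩
  apply h
  funext f
  obtain ⟨x, hx⟩ := irrTrace_ne h1
  have h4 := simple_bar h1 h3 f x
  have h5 := h3 f x
  have h6 : ∑ᶠ g : G, f.1 g * φ (g * x)⁻¹ = ∑ᶠ g : G, f.1 g * φ (g * x) :=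
    finsum_congr fun g => by rw [h2]
  rw [h6, h2, h5] at h4
  exact (mul_right_cancel₀ hx h4).symm

section wts

variable {p : ℕ}

theorem wt_bar {Q : Subgroup G} {χ : Subgroup.normalizer (Q : Set G) → ℂ}
    (h : IsWt p (Q.subgroupOf (Subgroup.normalizer (Q : Set G))) χ) :
    IsWt p (Q.subgroupOf (Subgroup.normalizer (Q : Set G))) (fun g => χ g⁻¹) := by
  have : (Q.subgroupOf (Subgroup.normalizer (Q : Set G))).Normal := Subgroup.normal_in_normalizer
  exact wt_inv h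

theorem wgz1_mod {z : G → F} (hz : IsClassFun z) (hr : st z = z) (Q : Subgroup G) :
    wgz1 red p WT z Q ≡ wgz1 red p WR z Q [MOD 2] := by
  have : Fintype (Subgroup.normalizer (Q : Set G)) := Fintype.ofFinite _
  have h := card_real_mod (K := Subgroup.normalizer (Q : Set G))
    (fun χ => IsWt p (Q.subgroupOf (Subgroup.normalizer (Q : Set G))) χ ∧
      centralValue red χ (rst z (Subgroup.normalizer (Q : Set G))) ≠ 0) (by
      rintro χ h ⟨h1, h2⟩
      refine ⟨wt_bar h1, ?_⟩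
      rw [cv_inv red h (rst_class hz _)]
      have e : st (rst z (Subgroup.normalizer (Q : Set G))) =
          rst z (Subgroup.normalizer (Q : Set G)) := by
        funext x
        exact congrFun hr x.1
      rwa [e])
  have e1 : Nat.card {χ : Subgroup.normalizer (Q : Set G) → ℂ // IsIrreducibleCharacter χ ∧
      IsWt p (Q.subgroupOf (Subgroup.normalizer (Q : Set G))) χ ∧
      centralValue red χ (rst z (Subgroup.normalizer (Q : Set G))) ≠ 0} = wgz1 red p WT z Q :=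
    Nat.card_congr (Equiv.subtypeEquivRight fun χ =>
      ⟨fun h => ⟨h.2.1, trivial, h.2.2⟩, fun h => ⟨h.1.irr, h.1, h.2.2⟩⟩)
  have e2 : Nat.card {χ : Subgroup.normalizer (Q : Set G) → ℂ // IsIrreducibleCharacter χ ∧
      (IsWt p (Q.subgroupOf (Subgroup.normalizer (Q : Set G))) χ ∧
      centralValue red χ (rst z (Subgroup.normalizer (Q : Set G))) ≠ 0) ∧ ∀ g, (χ g).im = 0} =
      wgz1 red p WR z Q :=
    Nat.card_congr (Equiv.subtypeEquivRight fun χ =>
      ⟨fun h => ⟨h.2.1.1, h.2.2, h.2.1.2⟩, fun h => ⟨h.1.irr, ⟨h.1, h.2.2⟩, h.2.1⟩⟩)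
  rw [← e1, ← e2]
  exact h

theorem wgb1_mod {β : CF G F → F} (hr : bar β = β) (Q : Subgroup G) :
    wgb1 red p WT β Q ≡ wgb1 red p WR β Q [MOD 2] := by
  have : Fintype (Subgroup.normalizer (Q : Set G)) := Fintype.ofFinite _
  have h := card_real_mod (K := Subgroup.normalizer (Q : Set G))
    (fun χ => IsWt p (Q.subgroupOf (Subgroup.normalizer (Q : Set G))) χ ∧ bl red χ = β) (by
      rintro χ h ⟨h1, h2⟩
      exact ⟨wt_bar h1, by rw [bl_inv red h, h2, hr]⟩)
  have e1 : Nat.card {χ : Subgroup.normalizer (Q : Set G) → ℂ // IsIrreducibleCharacter χ ∧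
      IsWt p (Q.subgroupOf (Subgroup.normalizer (Q : Set G))) χ ∧ bl red χ = β} =
      wgb1 red p WT β Q :=
    Nat.card_congr (Equiv.subtypeEquivRight fun χ =>
      ⟨fun h => ⟨h.2.1, trivial, h.2.2⟩, fun h => ⟨h.1.irr, h.1, h.2.2⟩⟩)
  have e2 : Nat.card {χ : Subgroup.normalizer (Q : Set G) → ℂ // IsIrreducibleCharacter χ ∧
      (IsWt p (Q.subgroupOf (Subgroup.normalizer (Q : Set G))) χ ∧ bl red χ = β) ∧
      ∀ g, (χ g).im = 0} = wgb1 red p WR β Q :=
    Nat.card_congr (Equiv.subtypeEquivRight fun χ =>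
      ⟨fun h => ⟨h.2.1.1, h.2.2, h.2.1.2⟩, fun h => ⟨h.1.irr, ⟨h.1, h.2.2⟩, h.2.1⟩⟩)
  rw [← e1, ← e2]
  exact h

theorem wgb1_bar (β : CF G F → F) (Q : Subgroup G) :
    wgb1 red p WT (bar β) Q = wgb1 red p WT β Q := by
  have : Fintype (Subgroup.normalizer (Q : Set G)) := Fintype.ofFinite _
  unfold wgb1
  refine Nat.card_congr
    { toFun := fun χ => ⟨fun g => χ.1 g⁻¹, wt_bar χ.2.1, trivial, ?_⟩
      invFun := fun χ => ⟨fun g => χ.1 g⁻¹, wt_bar χ.2.1, trivial, ?_⟩
      left_inv := fun χ => Subtype.ext (funext fun g => by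
        change χ.1 g⁻¹⁻¹ = χ.1 g
        rw [inv_inv])
      right_inv := fun χ => Subtype.ext (funext fun g => by
        change χ.1 g⁻¹⁻¹ = χ.1 g
        rw [inv_inv]) }
  · rw [bl_inv red χ.2.1.irr, χ.2.2.2, bar_bar]
  · rw [bl_inv red χ.2.1.irr, χ.2.2.2]

theorem wgb1_real_zero {β : CF G F → F} (h : bar β ≠ β) (Q : Subgroup G) :
    wgb1 red p WR β Q = 0 := by
  have : Fintype (Subgroup.normalizer (Q : Set G)) := Fintype.ofFinite _
  unfold wgb1
  rw [Nat.card_eq_zero]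
  left
  constructor
  rintro ⟨χ, h1, h2, h3⟩
  apply h
  rw [← h3, ← bl_inv red h1.irr, (real_iff h1.irr).2 h2]

theorem finsum_mod {ι : Type} [Finite ι] (a b : ι → ℕ) (h : ∀ i, a i ≡ b i [MOD 2]) :
    ∑ᶠ i, a i ≡ ∑ᶠ i, b i [MOD 2] := by
  have : Fintype ι := Fintype.ofFinite ι
  rw [finsum_eq_sum_of_fintype, finsum_eq_sum_of_fintype]
  have key : ∀ T : Finset ι, (∑ i ∈ T, a i) ≡ ∑ i ∈ T, b i [MOD 2] := by
    intro T
    induction T using Finset.induction_on with
    | empty => rfl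
    | insert i T hi ih =>
      rw [Finset.sum_insert hi, Finset.sum_insert hi]
      exact (h i).add ih
  exact key _

theorem wgz_mod {z : G → F} (hz : IsClassFun z) (hr : st z = z) :
    wgz red p WT z ≡ wgz red p WR z [MOD 2] :=
  finsum_mod _ _ fun c => wgz1_mod red hz hr c.out.1

theorem wgb_mod {β : CF G F → F} (hr : bar β = β) :
    wgb red p WT β ≡ wgb red p WR β [MOD 2] :=
  finsum_mod _ _ fun c => wgb1_mod red hr c.out.1

theorem wgb_bar (β : CF G F → F) : wgb red p WT (bar β) = wgb red p WT β :=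
  finsum_congr fun c => wgb1_bar red β c.out.1

theorem wgb_real_zero {β : CF G F → F} (h : bar β ≠ β) : wgb red p WR β = 0 := by
  unfold wgb
  rw [← finsum_zero (α := Quotient (pSubgroupSetoid p G))]
  exact finsum_congr fun c => wgb1_real_zero red h c.out.1

end wts

/-! ### the numbers of the library -/

theorem lst_eq (z : G → F) : lst z = lz LT z :=
  Nat.card_congr (Equiv.subtypeEquivRight fun φ => and_congr_right fun _ =>
    ⟨fun h => ⟨trivial, h⟩, fun h => h.2⟩)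

theorem wst_eq (p : ℕ) (z : G → F) : wst red p z = wgz red p WT z :=
  finsum_congr fun c => Nat.card_congr (Equiv.subtypeEquivRight fun χ => and_congr_right fun _ =>
    ⟨fun h => ⟨trivial, h⟩, fun h => h.2⟩)

theorem numIrr_eq (B : (G → F) → F) : numIrrBlock B = lb LT (rs B) :=
  Nat.card_congr (Equiv.subtypeEquivRight fun φ => and_congr_right fun _ =>
    ⟨fun h => ⟨trivial, fun f x => h f.1 f.2 x⟩, fun h f hf x => h.2 ⟨f, hf⟩ x⟩)

theorem numWts_eq (p : ℕ) (B : (G → F) → F) : numWts p red B = wgb red p WT (rs B) :=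
  finsum_congr fun c => Nat.card_congr (Equiv.subtypeEquivRight fun χ => and_congr_right fun _ =>
    ⟨fun h => ⟨trivial, funext fun f => h f.1 f.2⟩, fun h f hf => congrFun h.2 ⟨f, hf⟩⟩)

end

end Pool.Agent.Q149.DB
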