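import Pool.Agent.Q149.DB.Par

/-!
# Dade's sums for a real central element: the parities decide
-/

set_option autoImplicit false
set_option linter.unusedSectionVars false

open scoped BigOperators Classical

noncomputable section

namespace Pool.Agent.Q149.DB

open Pool.Agent.Y63.KR Pool.Agent.Helper884.IC Pool.Agent.Q90.WR Polynomial
open Pool.Agent.Y63.NV (centralValue IsClassFun IsBlock conv IsIrrTrace)
open Pool.Agent.Y63.NV.B48B (card_fib CF rs)
open Pool.Agent.Y63.AWC (IsIrreducibleCharacter DZ)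
open Pool.Agent.Q149.WB (sq sep rs_eq dzc dzc_wr)
open Pool.Agent.Q99.AS (altSum IsCh chSetoid ConjInv cj cj_apply)

/-- the iterated squares `z`, `z ⊗ z`, `(z ⊗ z) ⊗ (z ⊗ z)`, … -/
def sqN {F : Type} [Field F] : (j : ℕ) → {G : Type} → [Group G] → (G → F) → (WrN j G → F)
  | 0, _, _, z => z
  | j + 1, G, _, z => sqN j (G := Wr G) (sq z)

variable {F : Type} [Field F] (red : integralClosure ℤ ℂ →+* F)

/-- the sum of the numbers of the real characters which do not vanish at `z` -/
def Rz (p d : ℕ) {G : Type} [Group G] (z : G → F) : ℤ :=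
  tot p (fun _ => 1) (nz red (rl (PD p d)) z)

variable {p : ℕ} [hp : Fact p.Prime] [IsAlgClosed F] [CharP F p]

theorem Dz_mod_Rz (d : ℕ) {G : Type} [Group G] [Finite G] {z : G → F} (hz : IsClassFun z)
    (hr : st z = z) : Dz red p d z ≡ Rz red p d z [ZMOD 2] := tot_mod red p (PD_bar p d) hz hr

theorem Dz_sq_zero (hp2 : p ≠ 2) {G : Type} [Group G] [Finite G] {z : G → F}
    (hz : IsClassFun z) (h : ∀ d, 0 < d → Dz red p d z = 0) (d : ℕ) (hd : 0 < d) :
    Dz red p d (sq z : Wr G → F) = 0 := by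
  have : Fintype G := Fintype.ofFinite G
  have h1 := Dz_wr (p := p) red hp2 hz d
  have h2 : ∑ t ∈ Finset.HasAntidiagonal.antidiagonal d,
      Dz red p t.1 z * Dz red p t.2 z = 0 := by
    refine Finset.sum_eq_zero fun t ht => ?_
    have ht := Finset.HasAntidiagonal.mem_antidiagonal.1 ht
    rcases Nat.eq_zero_or_pos t.1 with h3 | h3
    · rw [h t.2 (by omega), mul_zero]
    · rw [h t.1 h3, zero_mul]
  rw [h2] at h1
  split_ifs at h1 with h4
  · rw [h (d / 2) (by obtain ⟨c, hc⟩ := h4; omega)] at h1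
    linarith
  · linarith

theorem Dz_sqN_zero (hp2 : p ≠ 2) : ∀ (j : ℕ) {G : Type} [Group G] [Finite G] {z : G → F},
    IsClassFun z → st z = z → (∀ d, 0 < d → Dz red p d z = 0) → ∀ d, 0 < d →
      (2 : ℤ) ∣ Rz red p d (sqN j z) := by
  intro j
  induction j with
  | zero =>
    intro G _ _ z hz hr h d hd
    have h1 := Dz_mod_Rz red (p := p) d hz hr
    rw [h d hd] at h1
    exact (Int.modEq_zero_iff_dvd).1 h1.symm
  | succ j ih =>
    intro G _ _ z hz hr h
    exact ih (sq_class hz) (st_sq hr) (Dz_sq_zero red hp2 hz h)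

theorem Z_dvd (hp2 : p ≠ 2) : ∀ (a : ℕ) {G : Type} [Group G] [Finite G] {z : G → F},
    IsClassFun z → st z = z →
    (∀ j ≤ a, ∀ d, 0 < d → (2 : ℤ) ∣ Rz red p d (sqN j z)) →
    ∀ d, 0 < d → (2 : ℤ) ^ (a + 1) ∣ Dz red p d z := by
  intro a
  induction a with
  | zero =>
    intro G _ _ z hz hr h d hd
    rw [zero_add, pow_one]
    exact (Int.ModEq.dvd_iff (Dz_mod_Rz red (p := p) d hz hr)).2 (h 0 le_rfl d hd)
  | succ a ih =>
    intro G _ _ z hz hr h
    exact stepD red hp2 hz (ih hz hr fun j hj => h j (by omega))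
      (ih (sq_class hz) (st_sq hr) fun j hj => h (j + 1) (by omega))

/-- **one central element** -/
theorem Z_iff (hp2 : p ≠ 2) {G : Type} [Group G] [Finite G] {z : G → F}
    (hz : IsClassFun z) (hr : st z = z) :
    (∀ d, 0 < d → Dz red p d z = 0) ↔
      ∀ j : ℕ, ∀ d, 0 < d → (2 : ℤ) ∣ Rz red p d (sqN j z) := by
  constructor
  · intro h j
    exact Dz_sqN_zero red hp2 j hz hr h
  · intro h d hd
    by_contra h0
    have h1 : |Dz red p d z| ≤ _ := Dz_le red (p := p) d hz
    obtain ⟨M, hM⟩ : ∃ M : ℕ, |Dz red p d z| ≤ M := ⟨_, h1⟩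
    have h2 := Z_dvd red hp2 M hz hr (fun j _ => h j) d hd
    have h3 : (M : ℤ) < 2 ^ (M + 1) := by
      have := Nat.lt_two_pow_self (n := M + 1)
      have h4 : M < 2 ^ (M + 1) := by omega
      exact_mod_cast h4
    exact h0 (Int.eq_zero_of_abs_lt_dvd h2 (hM.trans_lt h3))

end Pool.Agent.Q149.DB
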