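import Pool.Agent.Q149.DB.Nav2
import Pool.Agent.Q149.DB.Zed

/-!
# Parity for the real blocks decides the blockwise weight conjecture, main part
-/

set_option autoImplicit false
set_option linter.unusedSectionVars false

open scoped BigOperators Classical

noncomputable section

namespace Pool.Agent.Q149.DB

open Pool.Agent.Helper884.IC Pool.Agent.Q90.WR
open Pool.Agent.Y63.NV (centralValue IsClassFun IsBlock conv IsIrrTrace IsWt numIrrBlock numWtBlock
  schur' wblk' BAWC)
open Pool.Agent.Y63.NV.B48B (card_fib CF rs)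
open Pool.Agent.Y63.AWC (IsIrreducibleCharacter pSubgroupSetoid)
open Pool.Agent.Q149.WB (sq sep rs_eq lst nws wst numWts lst_wr wst_wr lst_le wst_le)

variable {F : Type} [Field F] (red : integralClosure ℤ ℂ →+* F)

variable {p : ℕ} [hp : Fact p.Prime] [IsAlgClosed F] [CharP F p]

section

variable {G : Type} [Group G] [Finite G] {S : Finset (CF G F → F)}

theorem sep_sum (hp2 : p ≠ 2) (hS : Pak red G p S) {B : (G → F) → F} (hB : IsBlock B)
    (hmem : rs B ∈ S) : ∃ z : G → F, ∃ hz : IsClassFun z, st z = z ∧ ∃ m : ℕ, 0 < m ∧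
      ∀ n : (CF G F → F) → ℕ, (∀ β, n (bar β) = n β) →
        ∑ β ∈ S, (if β ⟨z, hz⟩ ≠ 0 then n β else 0) = m * n (rs B) := by
  obtain ⟨y, hy, hy1, hy2⟩ := sep hB S hS.block
  have hsy : IsClassFun (st y) := st_class hy
  have hz : IsClassFun (y + st y) := by
    intro g x
    rw [Pi.add_apply, Pi.add_apply, hy g x, hsy g x]
  have hval : ∀ β ∈ S, β ⟨y + st y, hz⟩ = β ⟨y, hy⟩ + bar β ⟨y, hy⟩ := by
    intro β hβ
    obtain ⟨B', hB', rfl⟩ := hS.block β hβ
    exact hB'.add y (st y) hy hsy
  have hB0 : rs B ⟨y, hy⟩ ≠ 0 := hy1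
  have h20 : (2 : F) ≠ 0 := two_ne hp2
  have hout : ∀ β ∈ S, β ⟨y + st y, hz⟩ ≠ 0 → β = rs B ∨ β = bar (rs B) := by
    intro β hβ h
    by_contra hcon
    rw [not_or] at hcon
    apply h
    rw [hval β hβ, hy2 β hβ hcon.1, hy2 (bar β) (hS.bar β hβ) (fun e => hcon.2 (by
      rw [← e, bar_bar])), add_zero]
  refine ⟨y + st y, hz, ?_, ?_⟩
  · funext x
    change y x⁻¹ + st y x⁻¹ = y x + st y x
    unfold st
    rw [inv_inv, add_comm]
  by_cases hb : bar (rs B) = rs B
  · refine ⟨1, one_pos, fun n hn => ?_⟩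
    rw [one_mul, Finset.sum_eq_single (rs B)]
    · rw [if_pos]
      rw [hval _ hmem, hb, ← two_mul]
      exact mul_ne_zero h20 hB0
    · intro β hβ hne
      rw [if_neg]
      intro h
      rcases hout β hβ h with e | e
      · exact hne e
      · exact hne (e.trans hb)
    · exact fun h => absurd hmem h
  · refine ⟨2, two_pos, fun n hn => ?_⟩
    have hmem' : bar (rs B) ∈ S := hS.bar _ hmem
    have hz0 : ∑ β ∈ (S.erase (rs B)).erase (bar (rs B)),
        (if β ⟨y + st y, hz⟩ ≠ 0 then n β else 0) = 0 := by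
      refine Finset.sum_eq_zero fun β hβ => ?_
      rw [Finset.mem_erase, Finset.mem_erase] at hβ
      rw [if_neg]
      intro h
      rcases hout β hβ.2.2 h with e | e
      · exact hβ.2.1 e
      · exact hβ.1 e
    have c1 : rs B ⟨y + st y, hz⟩ ≠ 0 := by
      rw [hval _ hmem, hy2 _ hmem' hb, add_zero]
      exact hB0
    have c2 : bar (rs B) ⟨y + st y, hz⟩ ≠ 0 := by
      rw [hval _ hmem', hy2 _ hmem' hb, bar_bar, zero_add]
      exact hB0
    rw [← Finset.add_sum_erase S _ hmem,
      ← Finset.add_sum_erase (S.erase (rs B)) _ (Finset.mem_erase.2 ⟨hb, hmem'⟩), hz0,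
      if_pos c1, if_pos c2, hn]
    ring

theorem block_of_elem (hp2 : p ≠ 2)
    (h : ∀ z : G → F, IsClassFun z → st z = z → lst z = wst red p z) : BAWC p red G := by
  intro B hB
  obtain ⟨S, hS⟩ := exists_pak red (G := G) p
  have goal : numIrrBlock B = numWts p red B := by
    rw [numIrr_eq, numWts_eq]
    by_cases hmem : rs B ∈ S
    · obtain ⟨z, hz, hr, m, hm, h1⟩ := sep_sum red hp2 hS hB hmem
      have h2 := h z hz hr
      rw [lst_eq, wst_eq, lz_eq red hS LT hz, wgz_eq red hS WT hz,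
        h1 (fun β => lb LT β) (fun β => lb_bar β),
        h1 (fun β => wgb red p WT β) (fun β => wgb_bar red β)] at h2
      exact Nat.eq_of_mul_eq_mul_left hm h2
    · have h1 : lb LT (rs B) = 0 := by
        unfold lb
        rw [Nat.card_eq_zero]
        left
        constructor
        rintro ⟨φ, h1, -, h2⟩
        obtain ⟨β, hβ, h3⟩ := hS.simple φ h1
        apply hmem
        have : β = rs B := by
          funext f
          obtain ⟨x, hx⟩ := irrTrace_ne h1
          exact mul_right_cancel₀ hx ((h3 f x).symm.trans (h2 f x))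
        rwa [← this]
      have h2 : wgb red p WT (rs B) = 0 := by
        unfold wgb
        rw [← finsum_zero (α := Quotient (pSubgroupSetoid p G))]
        refine finsum_congr fun c => ?_
        unfold wgb1
        rw [Nat.card_eq_zero]
        left
        constructor
        rintro ⟨χ, h1, -, h2⟩
        exact hmem (h2 ▸ hS.weight c.out.1 c.out.2 χ h1)
      rw [h1, h2]
  exact goal

theorem z_even
    (H : ∀ B : (G → F) → F, IsBlock B → RealBlock B →
      lb LR (rs B) ≡ wgb red p WR (rs B) [MOD 2])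
    {z : G → F} (hz : IsClassFun z) (hr : st z = z) :
    lz LR z ≡ wgz red p WR z [MOD 2] := by
  obtain ⟨S, hS⟩ := exists_pak red (G := G) p
  rw [lz_eq red hS LR hz, wgz_eq red hS WR hz]
  have key : ∀ T ⊆ S, (∑ β ∈ T, if β ⟨z, hz⟩ ≠ 0 then lb LR β else 0) ≡
      (∑ β ∈ T, if β ⟨z, hz⟩ ≠ 0 then wgb red p WR β else 0) [MOD 2] := by
    intro T
    induction T using Finset.induction_on with
    | empty => intro _; rfl
    | insert β T hβ ih =>
      intro hT
      rw [Finset.sum_insert hβ, Finset.sum_insert hβ]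
      refine Nat.ModEq.add ?_ (ih fun x hx => hT (Finset.mem_insert_of_mem hx))
      obtain ⟨B, hB, rfl⟩ := hS.block β (hT (Finset.mem_insert_self _ _))
      by_cases h8 : rs B ⟨z, hz⟩ ≠ 0
      · rw [if_pos h8, if_pos h8]
        by_cases h9 : RealBlock B
        · exact H B hB h9
        · rw [lb_real_zero (fun h => h9 (real_block_iff.2 h)),
            wgb_real_zero red (fun h => h9 (real_block_iff.2 h))]
      · rw [if_neg h8, if_neg h8]
  exact key S subset_rfl

theorem z_dvd_iff {z : G → F} (hz : IsClassFun z) (hr : st z = z) :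
    (2 : ℤ) ∣ (lst z : ℤ) - wst red p z ↔ lz LR z ≡ wgz red p WR z [MOD 2] := by
  rw [lst_eq, wst_eq, show (2 : ℤ) = ((2 : ℕ) : ℤ) from rfl, ← Nat.modEq_iff_dvd]
  have h1 := lz_mod (F := F) hr
  have h2 := wgz_mod red (p := p) hz hr
  constructor
  · intro h
    exact h1.symm.trans (h.symm.trans h2)
  · intro h
    exact (h1.trans (h.trans h2.symm)).symm

end

theorem nav_dvd (hp2 : p ≠ 2) : ∀ (a : ℕ) {G : Type} [Group G] [Finite G] {z : G → F},
    IsClassFun z → st z = z →
    (∀ j ≤ a, lz LR (sqN j z) ≡ wgz red p WR (sqN j z) [MOD 2]) →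
    (2 : ℤ) ^ (a + 1) ∣ (lst z : ℤ) - wst red p z := by
  intro a
  induction a with
  | zero =>
    intro G _ _ z hz hr H
    rw [zero_add, pow_one]
    exact (z_dvd_iff red hz hr).2 (H 0 le_rfl)
  | succ a ih =>
    intro G _ _ z hz hr H
    have h3 := ih (G := Wr G) (z := sq z) (sq_class hz) (st_sq hr)
      (fun j hj => H (j + 1) (by omega))
    have e1 : 2 * (lst (sq z) : ℤ) = (lst z : ℤ) ^ 2 + 3 * lst z := by
      exact_mod_cast lst_wr (p := p) hp2 hz
    have e2 : 2 * (wst red p (sq z) : ℤ) = (wst red p z : ℤ) ^ 2 + 3 * wst red p z := by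
      exact_mod_cast wst_wr red hp2 hz
    exact step e1 e2 (ih hz hr fun j hj => H j (by omega)) h3

theorem nav_eq (hp2 : p ≠ 2) {G : Type} [Group G] [Finite G] {z : G → F}
    (hz : IsClassFun z) (hr : st z = z)
    (H : ∀ j : ℕ, 2 ^ j ≤ Nat.card G * Nat.card {Q : Subgroup G // IsPGroup p Q} →
      lz LR (sqN j z) ≡ wgz red p WR (sqN j z) [MOD 2]) : lst z = wst red p z := by
  set M := Nat.card G * Nat.card {Q : Subgroup G // IsPGroup p Q} with hM
  have hne : Nonempty {Q : Subgroup G // IsPGroup p Q} := ⟨⟨⊥, IsPGroup.of_bot⟩⟩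
  have hpos : 0 < Nat.card {Q : Subgroup G // IsPGroup p Q} := Nat.card_pos
  have hG : 0 < Nat.card G := Nat.card_pos
  have hM0 : 0 < M := Nat.mul_pos hG hpos
  set a := Nat.log 2 M with ha
  have h3 : ∀ j ≤ a, 2 ^ j ≤ M := fun j hj =>
    (Nat.pow_le_pow_right (by norm_num) hj).trans (Nat.pow_log_le_self 2 hM0.ne')
  have h4 := nav_dvd red hp2 a hz hr (fun j hj => H j (h3 j hj))
  have h5 : M < 2 ^ (a + 1) := Nat.lt_pow_succ_log_self (by norm_num) _
  have h6 : lst z ≤ M := (lst_le G z).trans (Nat.le_mul_of_pos_right _ hpos)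
  have h7 : wst red p z ≤ M := wst_le red G hz
  have h8 : |(lst z : ℤ) - wst red p z| < 2 ^ (a + 1) := by
    have h9 : (M : ℤ) < 2 ^ (a + 1) := by exact_mod_cast h5
    rw [abs_lt]
    constructor <;> omega
  have h9 := Int.eq_zero_of_abs_lt_dvd h4 h8
  omega

theorem nav_iff (hp2 : p ≠ 2) {G : Type} [Group G] [Finite G] {z : G → F}
    (hz : IsClassFun z) (hr : st z = z) : lst z = wst red p z ↔
      ∀ j : ℕ, lz LR (sqN j z) ≡ wgz red p WR (sqN j z) [MOD 2] := by
  constructor
  · intro h j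
    induction j generalizing G with
    | zero =>
      refine (z_dvd_iff red hz hr).1 ?_
      rw [h, sub_self]
      exact dvd_zero _
    | succ j ih =>
      refine ih (G := Wr G) (z := sq z) (sq_class hz) (st_sq hr) ?_
      have e1 := lst_wr (p := p) (F := F) hp2 hz
      have e2 := wst_wr red (p := p) hp2 hz
      rw [h, ← e2] at e1
      exact Nat.eq_of_mul_eq_mul_left two_pos e1
  · intro H
    exact nav_eq red hp2 hz hr fun j _ => H j

theorem sqN_class' : ∀ (j : ℕ) {G : Type} [Group G] [Finite G] {z : G → F}, IsClassFun z →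
    IsClassFun (sqN j z)
  | 0, _, _, _, _, hz => hz
  | j + 1, G, _, _, _, hz => sqN_class' j (G := Wr G) (sq_class hz)

theorem st_sqN : ∀ (j : ℕ) {G : Type} [Group G] {z : G → F}, st z = z →
    st (sqN j z) = sqN j z
  | 0, _, _, _, hz => hz
  | j + 1, G, _, _, hz => st_sqN j (G := Wr G) (st_sq hz)

/-- **one group** -/
theorem bawc_of_real (hp2 : p ≠ 2) (G : Type) [Group G] [Finite G]
    (H : ∀ j : ℕ, 2 ^ j ≤ Nat.card G * Nat.card {Q : Subgroup G // IsPGroup p Q} →
      ∀ B : (WrN j G → F) → F, IsBlock B → RealBlock B →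
        lb LR (rs B) ≡ wgb red p WR (rs B) [MOD 2]) : BAWC p red G :=
  block_of_elem red hp2 fun _ hz hr => nav_eq red hp2 hz hr fun j hj =>
    z_even red (H j hj) (sqN_class' j hz) (st_sqN j hr)

/-- the equality implies the parities -/
theorem real_of_bawc {G : Type} [Group G] [Finite G] (h : BAWC p red G) {B : (G → F) → F}
    (hB : IsBlock B) (hr : RealBlock B) : lb LR (rs B) ≡ wgb red p WR (rs B) [MOD 2] := by
  have h1 : numIrrBlock B = numWts p red B := h B hB
  rw [numIrr_eq, numWts_eq] at h1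
  have h2 := lb_mod (F := F) (real_block_iff.1 hr)
  have h3 := wgb_mod red (p := p) (real_block_iff.1 hr)
  rw [h1] at h2
  exact h2.symm.trans h3

end Pool.Agent.Q149.DB
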