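import Pool.Agent.Q149.DB.Blk
import Pool.Agent.Q149.WB.Fin

/-!
# Parity of the alternating sums of the real blocks decides
-/

set_option autoImplicit false
set_option linter.unusedSectionVars false

open scoped BigOperators Classical

noncomputable section

namespace Pool.Agent.Q149.DB

open Pool.Agent.Y63.KR Pool.Agent.Helper884.IC Pool.Agent.Q90.WR Polynomial
open Pool.Agent.Y63.NV (centralValue IsClassFun IsBlock conv IsIrrTrace)
open Pool.Agent.Y63.NV.B48B (card_fib CF rs)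
open Pool.Agent.Y63.AWC (IsIrreducibleCharacter DZ)
open Pool.Agent.Q149.WB (sq sep rs_eq dzc dzc_wr)
open Pool.Agent.Q99.AS (altSum IsCh chSetoid ConjInv cj cj_apply)

variable {F : Type} [Field F] (red : integralClosure ℤ ℂ →+* F)

section

variable {G : Type} [Group G]

/-- the sign of a chain -/
def sgn (σ : Set (Subgroup G)) : ℤ := (-1) ^ σ.ncard

/-- the characters of defect `d` -/
def PD (p d : ℕ) (H : Subgroup G) (ϑ : H → ℂ) : Prop := HasDef p d ϑ

/-- all characters -/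
def PT (H : Subgroup G) (_ : H → ℂ) : Prop := True

/-- the real characters with property `P` -/
def rl (P : ∀ H : Subgroup G, (H → ℂ) → Prop) (H : Subgroup G) (ϑ : H → ℂ) : Prop :=
  P H ϑ ∧ ∀ g, (ϑ g).im = 0

theorem PD_bar (p d : ℕ) : BarInv (G := G) (PD p d) := by
  rintro H ϑ ⟨n, hn, h⟩
  exact ⟨n, by simpa using hn, h⟩

theorem PT_bar : BarInv (G := G) PT := fun _ _ _ => trivial

theorem rl_bar {P : ∀ H : Subgroup G, (H → ℂ) → Prop} (hP : BarInv P) : BarInv (rl P) :=
  fun H ϑ h => ⟨hP H ϑ h.1, fun g => h.2 g⁻¹⟩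

theorem nz_mod [Finite G] {P : ∀ H : Subgroup G, (H → ℂ) → Prop} (hP : BarInv P) {z : G → F}
    (hz : IsClassFun z) (hr : st z = z) (H : Subgroup G) :
    nz red P z H ≡ nz red (rl P) z H [MOD 2] := by
  have : Fintype H := Fintype.ofFinite H
  have h := card_real_mod (fun ϑ : H → ℂ => P H ϑ ∧ centralValue red ϑ (rst z H) ≠ 0) (by
    rintro ϑ h ⟨h1, h2⟩
    refine ⟨hP H ϑ h1, ?_⟩
    rw [cv_inv red h (rst_class hz H)]
    have e : st (rst z H) = rst z H := by
      funext x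
      exact congrFun hr x.1
    rwa [e])
  refine h.trans ?_
  have e : Nat.card {χ : H → ℂ // IsIrreducibleCharacter χ ∧
      (P H χ ∧ centralValue red χ (rst z H) ≠ 0) ∧ ∀ g, (χ g).im = 0} = nz red (rl P) z H := by
    refine Nat.card_congr (Equiv.subtypeEquivRight fun χ => and_congr_right fun _ => ?_)
    constructor
    · rintro ⟨⟨h1, h2⟩, h3⟩
      exact ⟨⟨h1, h3⟩, h2⟩
    · rintro ⟨⟨h1, h3⟩, h2⟩
      exact ⟨⟨h1, h2⟩, h3⟩
  rw [e]

theorem tot_mod (p : ℕ) [Finite G] {P : ∀ H : Subgroup G, (H → ℂ) → Prop} (hP : BarInv P)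
    {z : G → F} (hz : IsClassFun z) (hr : st z = z) :
    tot p sgn (nz red P z) ≡ tot p (fun _ => 1) (nz red (rl P) z) [ZMOD 2] := by
  have : Fintype (Quotient (chSetoid p (⊥ : Subgroup G))) := Fintype.ofFinite _
  unfold tot
  rw [finsum_eq_sum_of_fintype, finsum_eq_sum_of_fintype]
  refine Int.ModEq.sum fun c _ => ?_
  have h1 := (Int.natCast_modEq_iff).mpr (nz_mod red hP hz hr (chainStabilizer c.out.1))
  have h2 : sgn c.out.1 ≡ 1 [ZMOD 2] := by
    unfold sgn
    rcases neg_one_pow_eq_or ℤ c.out.1.ncard with h | h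
    · rw [h]
    · rw [h]; decide
  exact h2.mul h1

theorem nb_real_zero [Finite G] (P : ∀ H : Subgroup G, (H → ℂ) → Prop) {B : (G → F) → F}
    (hB : ¬ RealBlock B) (H : Subgroup G) : nb red (rl P) (rs B) H = 0 := by
  have : Fintype H := Fintype.ofFinite H
  have : IsEmpty {ϑ : H → ℂ // IsIrreducibleCharacter ϑ ∧ rl P H ϑ ∧ bl red ϑ = rs B} := by
    constructor
    rintro ⟨ϑ, h1, h2, h3⟩
    apply hB
    rw [real_block_iff, ← h3, ← bl_inv red h1, (real_iff h1).2 h2.2]
  unfold nb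
  exact Nat.card_of_isEmpty

/-- from the real blocks to central elements -/
theorem tot_even {p : ℕ} [Finite G] {S : Finset (CF G F → F)} (hS : Pack red G p S)
    (P : ∀ H : Subgroup G, (H → ℂ) → Prop) {z : G → F} (hz : IsClassFun z)
    (h : ∀ B : (G → F) → F, IsBlock B → RealBlock B → B z ≠ 0 →
      (2 : ℤ) ∣ tot p (fun _ => 1) (nb red (rl P) (rs B))) :
    (2 : ℤ) ∣ tot p (fun _ => 1) (nz red (rl P) z) := by
  rw [tot_nz red hS (rl P) _ hz]
  refine Finset.dvd_sum fun β hβ => ?_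
  obtain ⟨B, hB, rfl⟩ := hS.block β hβ
  by_cases h1 : rs B ⟨z, hz⟩ ≠ 0
  · rw [if_pos h1]
    by_cases h2 : RealBlock B
    · exact h B hB h2 h1
    · have h3 : nb red (rl P) (rs B) = fun _ => 0 := funext fun H => nb_real_zero red P h2 H
      rw [h3]
      unfold tot
      simp
  · rw [if_neg h1]
    exact dvd_zero _

end

/-! ### Dade's sums -/

section dade

variable {p : ℕ} [hp : Fact p.Prime] [IsAlgClosed F] [CharP F p]

/-- Dade's alternating sum of the block `B` -/
def DB (p d : ℕ) {G : Type} [Group G] (B : (G → F) → F) : ℤ := tot p sgn (nb red (PD p d) (rs B))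

/-- the sum of the numbers of the real characters -/
def RB (p d : ℕ) {G : Type} [Group G] (B : (G → F) → F) : ℤ :=
  tot p (fun _ => 1) (nb red (rl (PD p d)) (rs B))

theorem Dz_eq (p d : ℕ) {G : Type} [Group G] (z : G → F) :
    Dz red p d z = tot p sgn (nz red (PD p d) z) := rfl

theorem stepD (hp2 : p ≠ 2) {a : ℕ} {G : Type} [Group G] [Finite G] {z : G → F}
    (hz : IsClassFun z)
    (h : ∀ d, 0 < d → (2 : ℤ) ^ (a + 1) ∣ Dz red p d z)
    (hw : ∀ d, 0 < d → (2 : ℤ) ^ (a + 1) ∣ Dz red p d (sq z : Wr G → F)) (d : ℕ) (hd : 0 < d) :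
    (2 : ℤ) ^ (a + 2) ∣ Dz red p d z := by
  have : Fintype G := Fintype.ofFinite G
  obtain ⟨m, hm⟩ : ∃ m, 2 * d = m + 1 + 1 := ⟨2 * d - 2, by omega⟩
  have h1 := Dz_wr (p := p) red hp2 hz (2 * d)
  rw [if_pos (dvd_mul_right 2 d), Nat.mul_div_cancel_left d two_pos, hm,
    Finset.Nat.sum_antidiagonal_succ, Finset.Nat.sum_antidiagonal_succ'] at h1
  simp only at h1
  have h2 : (2 : ℤ) ^ (a + 2) ∣ 2 * Dz red p (m + 1 + 1) (sq z : Wr G → F) := by
    obtain ⟨c, hc⟩ := hw (m + 1 + 1) (by omega)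
    exact ⟨c, by rw [hc]; ring⟩
  have h3 : (2 : ℤ) ^ (a + 2) ∣ ∑ t ∈ Finset.HasAntidiagonal.antidiagonal m,
      Dz red p (t.1 + 1) z * Dz red p (t.2 + 1) z := by
    refine Finset.dvd_sum fun t _ => ?_
    obtain ⟨c, hc⟩ := h (t.1 + 1) (by omega)
    obtain ⟨c', hc'⟩ := h (t.2 + 1) (by omega)
    exact ⟨2 ^ a * (c * c'), by rw [hc, hc']; ring⟩
  have h4 : (2 : ℤ) ^ (a + 2) ∣ 2 * (Dz red p 0 z * Dz red p (m + 1 + 1) z) := by
    obtain ⟨c, hc⟩ := h (m + 1 + 1) (by omega)
    exact ⟨c * Dz red p 0 z, by rw [hc]; ring⟩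
  have h5 : (2 : ℤ) ^ (a + 2) ∣ 3 * Dz red p d z := by
    have h6 : 3 * Dz red p d z = 2 * Dz red p (m + 1 + 1) (sq z : Wr G → F) -
        (∑ t ∈ Finset.HasAntidiagonal.antidiagonal m,
          Dz red p (t.1 + 1) z * Dz red p (t.2 + 1) z) -
        2 * (Dz red p 0 z * Dz red p (m + 1 + 1) z) := by
      linarith
    rw [h6]
    exact (h2.sub h3).sub h4
  exact (IsCoprime.dvd_of_dvd_mul_left (IsCoprime.pow_left (by norm_num)) h5)

/-- the block `B` has positive defect: it contains no irreducible character of defect zero -/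
def PosDef (p : ℕ) {G : Type} [Group G] (B : (G → F) → F) : Prop :=
  ∀ χ : G → ℂ, IsIrreducibleCharacter χ → HasDef p 0 χ →
    ¬ ∀ f : G → F, IsClassFun f → centralValue red χ f = B f

theorem posDef_of {G : Type} [Group G] [Finite G] {z : G → F} (hz : IsClassFun z)
    (h0 : dzc red p G z = 0) {B : (G → F) → F} (hB : B z ≠ 0) : PosDef red p B := by
  have : Fintype G := Fintype.ofFinite G
  rintro χ h ⟨n, hn, h1⟩ h2
  have hfin : Finite {χ : G → ℂ // IsIrreducibleCharacter χ ∧ DZ p χ ∧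
      centralValue red χ z ≠ 0} := by
    have : Finite {χ : G → ℂ // χ ∈ Irr G} := inferInstance
    exact Finite.of_injective
      (fun χ : {χ : G → ℂ // IsIrreducibleCharacter χ ∧ DZ p χ ∧ centralValue red χ z ≠ 0} =>
        (⟨χ.1, mem_Irr.mpr χ.2.1⟩ : {χ : G → ℂ // χ ∈ Irr G}))
      (fun a b hab => Subtype.ext (congrArg (fun z : {χ : G → ℂ // χ ∈ Irr G} => z.1) hab))
  have hne : Nonempty {χ : G → ℂ // IsIrreducibleCharacter χ ∧ DZ p χ ∧
      centralValue red χ z ≠ 0} :=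
    ⟨⟨χ, h, ⟨n, hn, by omega⟩, by rw [h2 z hz]; exact hB⟩⟩
  have h3 : 0 < dzc red p G z := Nat.card_pos
  omega

theorem dzc_zero {G : Type} [Group G] [Finite G] {S : Finset (CF G F → F)} (hS : Pack red G p S)
    {B : (G → F) → F} (hB : PosDef red p B) {z : G → F} (hz : IsClassFun z)
    (h : ∀ β ∈ S, β ⟨z, hz⟩ ≠ 0 → β = rs B ∨ β = bar (rs B)) : dzc red p G z = 0 := by
  have : Fintype G := Fintype.ofFinite G
  unfold dzc
  rw [Nat.card_eq_zero]
  left
  constructor
  rintro ⟨χ, h1, ⟨n, hn, h2⟩, h3⟩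
  rcases h _ (hS.whole χ h1) h3 with e | e
  · refine hB χ h1 ⟨n, hn, by omega⟩ fun f hf => ?_
    exact congrFun e ⟨f, hf⟩
  · refine hB (fun g => χ g⁻¹) (irr_inv h1) ⟨n, by simpa using hn, by omega⟩ fun f hf => ?_
    rw [cv_inv red h1 hf]
    have e2 := congrFun e ⟨st f, st_class hf⟩
    change centralValue red χ (st f) = B (st (st f)) at e2
    rw [e2, st_st]

theorem dzc_sq (hp2 : p ≠ 2) {G : Type} [Group G] [Finite G] {z : G → F} (hz : IsClassFun z)
    (h : dzc red p G z = 0) : dzc red p (Wr G) (sq z) = 0 := by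
  have h1 := dzc_wr red hp2 G (f := z) hz
  rw [h] at h1
  omega

theorem D_even {G : Type} [Group G] [Finite G]
    (H : ∀ B : (G → F) → F, IsBlock B → RealBlock B → PosDef red p B → ∀ d, 0 < d →
      (2 : ℤ) ∣ RB red p d B)
    {z : G → F} (hz : IsClassFun z) (hr : st z = z) (h0 : dzc red p G z = 0) (d : ℕ)
    (hd : 0 < d) : (2 : ℤ) ∣ Dz red p d z := by
  obtain ⟨S, hS⟩ := exists_pack red (G := G) p
  have h1 := tot_even red hS (PD p d) hz
    (fun B hB hB' hB0 => H B hB hB' (posDef_of red hz h0 hB0) d hd)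
  have h2 := tot_mod red p (PD_bar p d) hz hr
  rw [Dz_eq]
  exact (Int.ModEq.dvd_iff h2).2 h1

theorem D_dvd (hp2 : p ≠ 2) : ∀ (a : ℕ) (G : Type) [Group G] [Finite G],
    (∀ j ≤ a, ∀ B : (WrN j G → F) → F, IsBlock B → RealBlock B → PosDef red p B → ∀ d, 0 < d →
      (2 : ℤ) ∣ RB red p d B) →
    ∀ z : G → F, IsClassFun z → st z = z → dzc red p G z = 0 → ∀ d, 0 < d →
      (2 : ℤ) ^ (a + 1) ∣ Dz red p d z := by
  intro a
  induction a with
  | zero =>
    intro G _ _ H z hz hr h0 d hd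
    rw [zero_add, pow_one]
    exact D_even red (H 0 le_rfl) hz hr h0 d hd
  | succ a ih =>
    intro G _ _ H z hz hr h0
    exact stepD red hp2 hz (ih G (fun j hj => H j (by omega)) z hz hr h0)
      (ih (Wr G) (fun j hj => H (j + 1) (by omega)) (sq z) (sq_class hz) (st_sq hr)
        (dzc_sq red hp2 hz h0))

theorem kn_le (d : ℕ) {H : Type} [Group H] [Finite H] (f : H → F) :
    kn red p d f ≤ Nat.card H := by
  have h1 : Finite {φ : H → ℂ // IsIrrTrace φ} :=
    (Pool.Agent.Y914.NV.irr ℂ H).1.to_subtype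
  refine le_trans ?_ (Pool.Agent.Q149.WB.card_irr_le ℂ H)
  unfold kn
  exact Nat.card_le_card_of_injective
    (fun χ : {χ : H → ℂ // IsIrreducibleCharacter χ ∧ HasDef p d χ ∧
      centralValue red χ f ≠ 0} => (⟨χ.1, χ.2.1⟩ : {φ : H → ℂ // IsIrrTrace φ}))
    (fun φ ψ h => by
      apply Subtype.ext
      injection h)

/-- a bound for the alternating sums -/
theorem Dz_le (d : ℕ) {G : Type} [Group G] [Finite G] {z : G → F} (hz : IsClassFun z) :
    |Dz red p d z| ≤ ((Nat.card {σ : Set (Subgroup G) // IsCh p (⊥ : Subgroup G) σ} *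
      Nat.card G : ℕ) : ℤ) := by
  have h1 := card_mul_altSum' (p := p) (G := G) _ (kn_conjInv red p d hz)
  have hG : (0 : ℤ) < Nat.card G := by exact_mod_cast Nat.card_pos
  have h2 : |(Nat.card G : ℤ) * Dz red p d z| ≤
      (Nat.card G : ℤ) * ((Nat.card {σ : Set (Subgroup G) // IsCh p (⊥ : Subgroup G) σ} *
        Nat.card G : ℕ) : ℤ) := by
    unfold Dz
    rw [h1]
    refine (Finset.abs_sum_le_sum_abs _ _).trans ?_
    have h3 : ∀ σ ∈ (Finset.univ : Finset (Ch p G)),
        |(-1 : ℤ) ^ σ.1.ncard * ((Nat.card (chainStabilizer σ.1) : ℤ) *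
          (kn red p d (rst z (chainStabilizer σ.1)) : ℤ))| ≤ (Nat.card G : ℤ) * Nat.card G := by
      intro σ _
      rw [abs_mul, abs_pow, abs_neg, abs_one, one_pow, one_mul, abs_mul, Nat.abs_cast,
        Nat.abs_cast]
      have h4 : Nat.card (chainStabilizer σ.1) ≤ Nat.card G := Subgroup.card_le_card_group _
      have h5 : kn red p d (rst z (chainStabilizer σ.1)) ≤ Nat.card G :=
        (kn_le red d _).trans h4
      exact_mod_cast Nat.mul_le_mul h4 h5
    refine (Finset.sum_le_sum h3).trans ?_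
    rw [Finset.sum_const, Finset.card_univ, ← Nat.card_eq_fintype_card, nsmul_eq_mul]
    have h6 : Nat.card (Ch p G) = Nat.card {σ : Set (Subgroup G) // IsCh p (⊥ : Subgroup G) σ} :=
      Nat.card_congr (Equiv.subtypeEquivRight fun σ => isCh_iff.symm)
    rw [h6]
    push_cast
    ring_nf
    exact le_rfl
  rw [abs_mul, abs_of_pos hG] at h2
  exact le_of_mul_le_mul_left h2 hG

/-- **one group** -/
theorem D_zero (hp2 : p ≠ 2) (G : Type) [Group G] [Finite G]
    (H : ∀ j : ℕ, 2 ^ j ≤ Nat.card {σ : Set (Subgroup G) // IsCh p (⊥ : Subgroup G) σ} *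
        Nat.card G → ∀ B : (WrN j G → F) → F, IsBlock B → RealBlock B → PosDef red p B →
      ∀ d, 0 < d → (2 : ℤ) ∣ RB red p d B)
    (z : G → F) (hz : IsClassFun z) (hr : st z = z) (h0 : dzc red p G z = 0) (d : ℕ)
    (hd : 0 < d) : Dz red p d z = 0 := by
  set M := Nat.card {σ : Set (Subgroup G) // IsCh p (⊥ : Subgroup G) σ} * Nat.card G with hM
  have hne : Nonempty {σ : Set (Subgroup G) // IsCh p (⊥ : Subgroup G) σ} :=
    ⟨⟨∅, ⟨by simp [IsChain], by simp, by simp⟩⟩⟩
  have hM0 : 0 < M := Nat.mul_pos Nat.card_pos Nat.card_pos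
  set a := Nat.log 2 M with ha
  have h3 : ∀ j ≤ a, 2 ^ j ≤ M := fun j hj =>
    (Nat.pow_le_pow_right (by norm_num) hj).trans (Nat.pow_log_le_self 2 hM0.ne')
  have h4 := D_dvd red hp2 a G (fun j hj => H j (h3 j hj)) z hz hr h0 d hd
  have h5 : M < 2 ^ (a + 1) := Nat.lt_pow_succ_log_self (by norm_num) _
  have h6 := Dz_le red (p := p) d hz
  rw [← hM] at h6
  have h8 : |Dz red p d z| < 2 ^ (a + 1) := h6.trans_lt (by exact_mod_cast h5)
  exact Int.eq_zero_of_abs_lt_dvd h4 h8

/-- there are no characters of defect zero of chain stabilisers in a block of positive defect -/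
theorem nb_zero {G : Type} [Group G] [Finite G] {B : (G → F) → F} (hB : PosDef red p B)
    {σ : Set (Subgroup G)} (hσ : IsCh p ⊥ σ) : nb red (PD p 0) (rs B) (chainStabilizer σ) = 0 := by
  unfold nb
  rw [Nat.card_eq_zero]
  left
  constructor
  rintro ⟨ϑ, h1, ⟨n, hn, h2⟩, h3⟩
  rcases σ.eq_empty_or_nonempty with rfl | hne
  · have htop : chainStabilizer (∅ : Set (Subgroup G)) = ⊤ := by
      rw [eq_top_iff, le_stab]
      intro P hP
      exact absurd hP (Set.notMem_empty P)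
    let e : G ≃* chainStabilizer (∅ : Set (Subgroup G)) :=
      (Subgroup.topEquiv.symm).trans (MulEquiv.subgroupCongr htop.symm)
    have he : ∀ x, ((e x : chainStabilizer (∅ : Set (Subgroup G))) : G) = x := fun x => rfl
    refine hB (fun x => ϑ (e x)) (Pool.Agent.Y63.AWC.irr_comp e h1) ⟨n, ?_, ?_⟩ ?_
    · change ϑ (e 1) = n
      rw [map_one]
      exact hn
    · rw [h2, Nat.card_congr e.toEquiv]
    · intro f hf
      have h4 := Pool.Agent.Y286.NV.centralValue_comp red e ϑ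
        (Pool.Agent.Y286.NV.irr_class h1) (rst f _) (rst_class hf _)
      have h5 : (fun x => rst f (chainStabilizer (∅ : Set (Subgroup G))) (e x)) = f := by
        funext x
        change f (e x : chainStabilizer (∅ : Set (Subgroup G))) = f x
        rw [he]
      rw [h5] at h4
      rw [h4]
      exact congrFun h3 ⟨f, hf⟩
  · obtain ⟨D, hD, hmin⟩ := (Set.toFinite σ).exists_minimal hne
    have hle : ∀ P ∈ σ, D ≤ P := by
      intro P hP
      rcases hσ.chain.total hD hP with h | h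
      · exact h
      · exact hmin hP h
    have hDσ : D ≤ chainStabilizer σ := by
      rw [le_stab]
      intro P hP
      exact (hle P hP).trans Subgroup.le_normalizer
    have hn1 : (D.subgroupOf (chainStabilizer σ)).Normal := by
      refine ⟨fun x hx g => ?_⟩
      rw [Subgroup.mem_subgroupOf] at hx ⊢
      exact (Subgroup.mem_normalizer_iff.1 (le_stab.1 le_rfl D hD g.2) x.1).1 hx
    refine Pool.Agent.Y63.NV.wtn p (chainStabilizer σ) ⊥ (D.subgroupOf (chainStabilizer σ)) ϑ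
      inferInstance hn1 ((hσ.isPGroup D hD).comap_subtype) ?_ ⟨h1, ?_, n, hn, ?_⟩
    · rw [bot_lt_iff_ne_bot]
      intro h5
      have h6 : D = ⊥ := by
        rw [eq_bot_iff]
        intro x hx
        have : (⟨x, hDσ hx⟩ : chainStabilizer σ) ∈ D.subgroupOf (chainStabilizer σ) :=
          Subgroup.mem_subgroupOf.2 hx
        rw [h5, Subgroup.mem_bot] at this
        rw [Subgroup.mem_bot]
        exact congrArg Subtype.val this
      exact (hσ.lt D hD).ne' h6
    · intro q hq x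
      rw [Subgroup.mem_bot] at hq
      rw [hq, one_mul]
    · rw [← h2]
      simp

theorem DB_zero_zero {G : Type} [Group G] [Finite G] {B : (G → F) → F} (hB : PosDef red p B) :
    DB red p 0 B = 0 := by
  unfold DB tot
  refine (finsum_congr (g := fun _ => (0 : ℤ)) fun c => ?_).trans finsum_zero
  rw [nb_zero red hB c.out.2, Nat.cast_zero, mul_zero]

theorem DB_zero (hp2 : p ≠ 2) (G : Type) [Group G] [Finite G]
    (H : ∀ j : ℕ, 2 ^ j ≤ Nat.card {σ : Set (Subgroup G) // IsCh p (⊥ : Subgroup G) σ} *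
        Nat.card G → ∀ B : (WrN j G → F) → F, IsBlock B → RealBlock B → PosDef red p B →
      ∀ d, 0 < d → (2 : ℤ) ∣ RB red p d B)
    (B : (G → F) → F) (hB : IsBlock B) (hB' : PosDef red p B) (d : ℕ) : DB red p d B = 0 := by
  rcases Nat.eq_zero_or_pos d with rfl | hd
  · exact DB_zero_zero red hB'
  obtain ⟨S, hS⟩ := exists_pack red (G := G) p
  obtain ⟨z, hz, hr, hout, m, hm, -, h1⟩ := of_block red hp2 hS hB
  have h2 := h1 (PD p d) (PD_bar p d) sgn
  rw [← Dz_eq, D_zero red hp2 G H z hz hr (dzc_zero red hS hB' hz hout) d hd] at h2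
  exact (mul_eq_zero.1 h2.symm).resolve_left hm

/-- for real blocks the parities agree -/
theorem DB_mod (hp2 : p ≠ 2) (G : Type) [Group G] [Finite G] (B : (G → F) → F) (hB : IsBlock B)
    (hr : RealBlock B) (d : ℕ) : DB red p d B ≡ RB red p d B [ZMOD 2] := by
  obtain ⟨S, hS⟩ := exists_pack red (G := G) p
  obtain ⟨z, hz, hr', -, m, hm, hm1, h1⟩ := of_block red hp2 hS hB
  have h2 := h1 (PD p d) (PD_bar p d) sgn
  have h3 := h1 (rl (PD p d)) (rl_bar (PD_bar p d)) (fun _ => 1)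
  rw [hm1 hr, one_mul] at h2 h3
  unfold DB RB
  rw [← h2, ← h3]
  exact tot_mod red p (PD_bar p d) hz hr'

end dade

end Pool.Agent.Q149.DB
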