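import Pool.Agent.Q149.DB.Cnt
import Pool.Agent.Q99.AS.Chain
import Pool.Agent.Q99.AS.Char

/-!
# The recursion for the alternating sums of a central element
-/

set_option autoImplicit false
set_option linter.unusedSectionVars false

open scoped BigOperators Classical

noncomputable section

namespace Pool.Agent.Q149.DB

open Pool.Agent.Y63.KR Pool.Agent.Helper884.IC Polynomial
open Pool.Agent.Q90.WR
open Pool.Agent.Y63.NV (centralValue IsClassFun)
open Pool.Agent.Q149.WB (sq Cf_sq epA)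
open Pool.Agent.Q99.AS (altSum card_mul_altSum IsCh ConjInv cj cj_apply)

variable {F : Type} [Field F] (red : integralClosure ℤ ℂ →+* F)

section restr

variable {G : Type} [Group G]

/-- the restriction of a function -/
def rst (z : G → F) (H : Subgroup G) : H → F := fun x => z x

theorem rst_class {z : G → F} (hz : IsClassFun z) (H : Subgroup G) : IsClassFun (rst z H) :=
  fun a x => hz a x

theorem sq_class {z : G → F} [Finite G] (hz : IsClassFun z) : IsClassFun (sq z) := by
  have : Fintype G := Fintype.ofFinite G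
  exact Cf_sq hz

end restr

section recursion

variable {G : Type} [Group G] [Fintype G] {p : ℕ}

/-- the sum over all chains, weighted with the orders of the stabilisers -/
def wz (p : ℕ) {G : Type} [Group G] [Finite G] (z : G → F) : ℚ[X] :=
  ∑ σ : Ch p G, (-1 : ℚ[X]) ^ σ.1.ncard *
    ((Nat.card (chainStabilizer σ.1) : ℚ[X]) * kp red p (rst z (chainStabilizer σ.1)))

theorem kp_conj {z : G → F} (hz : IsClassFun z) (b : G) (H : Subgroup G) :
    kp red p (rst z (conjSub b H)) = kp red p (rst z H) := by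
  rw [← kp_congr red p (cj b H) (rst z (conjSub b H)) (rst_class hz _)]
  congr 1
  funext x
  unfold rst
  rw [cj_apply, hz]

theorem kp_prd {z : G → F} (hz : IsClassFun z) (H K : Subgroup G) :
    kp red p (rst (sq z) (prd H K)) = kp red p (rst z H) * kp red p (rst z K) := by
  rw [← kp_prod red p (rst_class hz H) (rst_class hz K)]
  rw [← kp_congr red p (prdEquiv H K) (epA (rst z H) (rst z K)) (by
    rintro ⟨a, b⟩ ⟨c, d⟩
    change z _ * z _ = z _ * z _
    rw [show ((((a, b) : H × K) * (c, d) * ((a, b) : H × K)⁻¹).1 : G) = a * c * (a : G)⁻¹ from rfl,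
      show ((((a, b) : H × K) * (c, d) * ((a, b) : H × K)⁻¹).2 : G) = b * d * (b : G)⁻¹ from rfl,
      hz, hz])]
  congr 1
  funext x
  obtain ⟨⟨a, b, s⟩, h1, h2, h3⟩ := x
  simp only at h1
  subst h1
  rfl

theorem kp_tw [hp : Fact p.Prime] [CharP F p] (hp2 : p ≠ 2) {z : G → F} (hz : IsClassFun z)
    (b : G) (H : Subgroup G) :
    2 * kp red p (rst (sq z) (twS b H)) =
      kp red p (rst z H) ^ 2 + 3 * expand ℚ 2 (kp red p (rst z H)) := by
  have hsq : IsClassFun (sq z) := sq_class hz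
  rw [← kp_wr red hp2 (rst_class hz H)]
  have e1 : kp red p (rst (sq z) (twS b H)) = kp red p (rst (sq z) (wrS H)) :=
    kp_conj red hsq (⟨1, b, false⟩ : Wr G) (wrS H)
  rw [e1, ← kp_congr red p (wrSEquiv H) (sq (rst z H)) (sq_class (rst_class hz H))]
  congr 2

/-- **the recursion** -/
theorem wz_wr [hp : Fact p.Prime] [CharP F p] (hp2 : p ≠ 2) {z : G → F} (hz : IsClassFun z) :
    wz red p (sq z) = wz red p z ^ 2 + 3 * ((Nat.card G : ℚ[X]) * expand ℚ 2 (wz red p z)) := by
  unfold wz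
  rw [functional hp2 (fun H : Subgroup (Wr G) => (Nat.card H : ℚ[X]) * kp red p (rst (sq z) H))]
  have e1 : ∀ H K : Subgroup G, (Nat.card (prd H K) : ℚ[X]) * kp red p (rst (sq z) (prd H K)) =
      ((Nat.card H : ℚ[X]) * kp red p (rst z H)) * ((Nat.card K : ℚ[X]) * kp red p (rst z K)) := by
    intro H K
    rw [kp_prd red hz, Nat.card_congr (prdEquiv H K).toEquiv, Nat.card_prod]
    push_cast
    ring
  have e2 : ∀ (b : G) (H : Subgroup G), (Nat.card (twS b H) : ℚ[X]) *
      kp red p (rst (sq z) (twS b H)) =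
      (Nat.card H : ℚ[X]) ^ 2 * (kp red p (rst z H) ^ 2 +
        3 * expand ℚ 2 (kp red p (rst z H))) := by
    intro b H
    have e : twS b H ≃* Wr H :=
      (conjEquiv (⟨1, b, false⟩ : Wr G) (wrS H)).symm.trans (wrSEquiv H)
    rw [Nat.card_congr e.toEquiv, Wr.card, ← kp_tw red hp2 hz b H]
    push_cast
    ring
  have e3 : ∀ (b : G) (H : Subgroup G), (Nat.card (conjSub b H) : ℚ[X]) *
      kp red p (rst z (conjSub b H)) = (Nat.card H : ℚ[X]) * kp red p (rst z H) := by
    intro b H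
    rw [kp_conj red hz, Nat.card_congr (conjEquiv b H).symm.toEquiv]
  have e4 : ∀ σ : Ch p G, ((Nat.card (chainStabilizer σ.1) : ℚ)⁻¹ • ∑ b : G,
      ((Nat.card (twS b (chainStabilizer σ.1)) : ℚ[X]) *
        kp red p (rst (sq z) (twS b (chainStabilizer σ.1))) -
        (Nat.card (prd (chainStabilizer σ.1) (conjSub b (chainStabilizer σ.1))) : ℚ[X]) *
          kp red p (rst (sq z) (prd (chainStabilizer σ.1) (conjSub b (chainStabilizer σ.1)))))) =
      3 * ((Nat.card G : ℚ[X]) * ((Nat.card (chainStabilizer σ.1) : ℚ[X]) *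
        expand ℚ 2 (kp red p (rst z (chainStabilizer σ.1))))) := by
    intro σ
    have e5 : ∀ b : G, ((Nat.card (twS b (chainStabilizer σ.1)) : ℚ[X]) *
        kp red p (rst (sq z) (twS b (chainStabilizer σ.1))) -
        (Nat.card (prd (chainStabilizer σ.1) (conjSub b (chainStabilizer σ.1))) : ℚ[X]) *
          kp red p (rst (sq z) (prd (chainStabilizer σ.1) (conjSub b (chainStabilizer σ.1))))) =
        (Nat.card (chainStabilizer σ.1) : ℚ[X]) * (3 * ((Nat.card (chainStabilizer σ.1) : ℚ[X]) *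
        expand ℚ 2 (kp red p (rst z (chainStabilizer σ.1))))) := by
      intro b
      rw [e2, e1, e3]
      ring
    rw [Finset.sum_congr rfl fun b _ => e5 b, Finset.sum_const, Finset.card_univ,
      ← Nat.card_eq_fintype_card, nsmul_eq_mul]
    have hne : (Nat.card (chainStabilizer σ.1) : ℚ) ≠ 0 := by
      exact_mod_cast (Nat.card_pos (α := chainStabilizer σ.1)).ne'
    have h6 : ∀ r : ℚ[X], (Nat.card (chainStabilizer σ.1) : ℚ[X]) * r =
        (Nat.card (chainStabilizer σ.1) : ℚ) • r := by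
      intro r
      rw [Nat.cast_smul_eq_nsmul, nsmul_eq_mul]
    rw [mul_left_comm, h6, smul_smul, inv_mul_cancel₀ hne, one_smul]
    ring
  congr 1
  · rw [pow_two, Finset.sum_mul_sum]
    refine Finset.sum_congr rfl fun σ _ => Finset.sum_congr rfl fun τ _ => ?_
    rw [e1]
    ring
  · rw [map_sum, Finset.mul_sum, Finset.mul_sum]
    refine Finset.sum_congr rfl fun σ _ => ?_
    rw [e4]
    simp only [map_mul, map_pow, map_neg, map_one, map_natCast]
    ring

end recursion

/-! ### alternating sums -/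

theorem isCh_iff {G : Type} [Group G] {p : ℕ} {σ : Set (Subgroup G)} :
    IsCh p ⊥ σ ↔ IsPChain p σ := by
  constructor
  · rintro ⟨h1, h2, h3⟩
    exact ⟨h1, h2, fun P hP => (h3 P hP).ne'⟩
  · rintro ⟨h1, h2, h3⟩
    exact ⟨h1, h2, fun P hP => bot_lt_iff_ne_bot.2 (h3 P hP)⟩

/-- the alternating sum of the numbers of the characters of defect `d` with nonvanishing central
value -/
def Dz (p d : ℕ) {G : Type} [Group G] (z : G → F) : ℤ :=
  altSum p ⊥ (fun H : Subgroup G => (kn red p d (rst z H) : ℤ))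

theorem kn_conjInv (p d : ℕ) {G : Type} [Group G] [Finite G] {z : G → F} (hz : IsClassFun z) :
    ConjInv (fun H : Subgroup G => (kn red p d (rst z H) : ℤ)) := by
  intro b H
  have h : kn red p d (rst z (conjSub b H)) = kn red p d (rst z H) := by
    rw [← kn_congr red p d (cj b H) (rst z (conjSub b H)) (rst_class hz _)]
    congr 1
    funext x
    unfold rst
    rw [cj_apply, hz]
  exact congrArg Nat.cast h

theorem card_mul_altSum' {p : ℕ} {G : Type} [Group G] [Finite G] (f : Subgroup G → ℤ)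
    (hf : ConjInv f) : (Nat.card G : ℤ) * altSum p ⊥ f =
      ∑ σ : Ch p G, (-1) ^ σ.1.ncard * ((Nat.card (chainStabilizer σ.1) : ℤ) *
        f (chainStabilizer σ.1)) := by
  have : Fintype {σ : Set (Subgroup G) // IsCh p (⊥ : Subgroup G) σ} := Fintype.ofFinite _
  rw [card_mul_altSum (p := p) (O := (⊥ : Subgroup G)) inferInstance f hf]
  exact Fintype.sum_equiv (Equiv.subtypeEquivRight fun σ => isCh_iff) _ _ fun σ => rfl

/-- the generating function of the alternating sums -/
def Pz (p : ℕ) {G : Type} [Group G] [Finite G] (z : G → F) : ℚ[X] :=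
  (Nat.card G : ℚ)⁻¹ • wz red p z

section

variable {p : ℕ} {G : Type} [Group G] [Fintype G]

theorem Pz_coeff {z : G → F} (hz : IsClassFun z) (d : ℕ) :
    (Pz red p z).coeff d = (Dz red p d z : ℚ) := by
  have h := card_mul_altSum' (p := p) (G := G) _ (kn_conjInv red p d hz)
  have h2 : (wz red p z).coeff d = (Nat.card G : ℚ) * (Dz red p d z : ℚ) := by
    unfold Dz
    have h3 : ((Nat.card G : ℚ) *
        (altSum p ⊥ (fun H : Subgroup G => (kn red p d (rst z H) : ℤ)) : ℚ)) =
        (((Nat.card G : ℤ) *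
          altSum p ⊥ (fun H : Subgroup G => (kn red p d (rst z H) : ℤ)) : ℤ) : ℚ) := by
      push_cast; rfl
    rw [h3, h]
    unfold wz
    rw [finsetSum_coeff, Int.cast_sum]
    refine Finset.sum_congr rfl fun σ _ => ?_
    have h4 : ((-1 : ℚ[X]) ^ σ.1.ncard *
        ((Nat.card (chainStabilizer σ.1) : ℚ[X]) * kp red p (rst z (chainStabilizer σ.1)))) =
        C ((-1 : ℚ) ^ σ.1.ncard * (Nat.card (chainStabilizer σ.1) : ℚ)) *
          kp red p (rst z (chainStabilizer σ.1)) := by
      simp only [map_mul, map_pow, map_neg, map_one, map_natCast]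
      ring
    rw [h4, coeff_C_mul, kp_coeff]
    push_cast
    ring
  unfold Pz
  rw [coeff_smul, h2, smul_eq_mul, ← mul_assoc, inv_mul_cancel₀, one_mul]
  exact_mod_cast (Nat.card_pos (α := G)).ne'

theorem Pz_wr [hp : Fact p.Prime] [CharP F p] (hp2 : p ≠ 2) {z : G → F} (hz : IsClassFun z) :
    2 * Pz red p (sq z) = Pz red p z ^ 2 + 3 * expand ℚ 2 (Pz red p z) := by
  have h := wz_wr (p := p) red hp2 hz
  have hne : (Nat.card G : ℚ) ≠ 0 := by exact_mod_cast (Nat.card_pos (α := G)).ne'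
  unfold Pz
  rw [h, Wr.card]
  have h5 : expand ℚ 2 ((Nat.card G : ℚ)⁻¹ • wz red p z) =
      (Nat.card G : ℚ)⁻¹ • expand ℚ 2 (wz red p z) := map_smul _ _ _
  rw [h5]
  simp only [smul_eq_C_mul]
  have h6 : (Nat.card G : ℚ[X]) = C (Nat.card G : ℚ) := by simp
  rw [h6]
  push_cast
  have h7 : C ((2 * (Nat.card G : ℚ) ^ 2)⁻¹) * (2 : ℚ[X]) * C (Nat.card G : ℚ) =
      C (Nat.card G : ℚ)⁻¹ := by
    rw [show (2 : ℚ[X]) = C 2 from rfl, ← C_mul, ← C_mul]
    congr 1
    field_simp
  have h8 : C ((2 * (Nat.card G : ℚ) ^ 2)⁻¹) * (2 : ℚ[X]) =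
      C (Nat.card G : ℚ)⁻¹ * C (Nat.card G : ℚ)⁻¹ := by
    rw [show (2 : ℚ[X]) = C 2 from rfl, ← C_mul, ← C_mul]
    congr 1
    field_simp
  linear_combination (wz red p z) ^ 2 * h8 +
    3 * (expand ℚ 2 (wz red p z)) * h7

/-- **the recursion for the numbers of given defect** -/
theorem Dz_wr [hp : Fact p.Prime] [CharP F p] (hp2 : p ≠ 2) {z : G → F} (hz : IsClassFun z)
    (d : ℕ) :
    2 * Dz red p d (sq z) = ∑ t ∈ Finset.HasAntidiagonal.antidiagonal d,
        Dz red p t.1 z * Dz red p t.2 z +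
      3 * (if 2 ∣ d then Dz red p (d / 2) z else 0) := by
  have h := congrArg (fun P : ℚ[X] => P.coeff d) (Pz_wr (p := p) (G := G) red hp2 hz)
  have h4 : ∀ P : ℚ[X], (3 * P).coeff d = 3 * P.coeff d := fun P => coeff_ofNat_mul
  have h5 : ∀ P : ℚ[X], (2 * P).coeff d = 2 * P.coeff d := fun P => coeff_ofNat_mul
  simp only [h5, coeff_add, h4, pow_two, coeff_mul, coeff_expand (two_pos), Pz_coeff red hz,
    Pz_coeff red (sq_class hz)] at h
  have h6 : (if 2 ∣ d then (Dz red p (d / 2) z : ℚ) else 0) =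
      ((if 2 ∣ d then Dz red p (d / 2) z else 0 : ℤ) : ℚ) := by
    split_ifs <;> simp
  rw [h6] at h
  exact_mod_cast h

/-- the total sum -/
def Sz (p : ℕ) {G : Type} [Group G] [Finite G] (z : G → F) : ℚ := (Pz red p z).eval 1

theorem Sz_wr [hp : Fact p.Prime] [CharP F p] (hp2 : p ≠ 2) {z : G → F} (hz : IsClassFun z) :
    2 * Sz red p (sq z) = Sz red p z ^ 2 + 3 * Sz red p z := by
  have h := congrArg (fun P : ℚ[X] => P.eval 1) (Pz_wr (p := p) (G := G) red hp2 hz)
  simp only [eval_mul, eval_add, eval_pow, expand_eval, one_pow] at h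
  have h2 : (2 : ℚ[X]).eval 1 = 2 := eval_ofNat 2 1
  have h3 : (3 : ℚ[X]).eval 1 = 3 := eval_ofNat 3 1
  rw [h2, h3] at h
  exact h

end

end Pool.Agent.Q149.DB
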