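import Pool.Agent.Q149.DB.Par

/-!
# The alternating sums over all characters of a block
-/

set_option autoImplicit false
set_option linter.unusedSectionVars false

open scoped BigOperators Classical

noncomputable section

namespace Pool.Agent.Q149.DB

open Pool.Agent.Y63.KR Pool.Agent.Helper884.IC Pool.Agent.Q90.WR Polynomial
open Pool.Agent.Y63.NV (centralValue IsClassFun IsBlock conv IsIrrTrace)
open Pool.Agent.Y63.NV.B48B (card_fib CF rs)
open Pool.Agent.Y63.AWC (IsIrreducibleCharacter DZ)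
open Pool.Agent.Y286.NV (centralValue_comp irr_class)
open Pool.Agent.Q149.WB (sq sep rs_eq dzc dzc_wr)
open Pool.Agent.Q99.AS (altSum IsCh chSetoid ConjInv cj cj_apply)

variable {F : Type} [Field F] (red : integralClosure ℤ ℂ →+* F)

section

/-- the number of all characters with nonvanishing central value -/
def kt {H : Type} [Group H] (f : H → F) : ℕ :=
  Nat.card {χ : H → ℂ // IsIrreducibleCharacter χ ∧ True ∧ centralValue red χ f ≠ 0}

theorem kt_congr {H K : Type} [Group H] [Group K] [Finite H] [Finite K] (e : H ≃* K)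
    (f : K → F) (hf : IsClassFun f) : kt red (fun x => f (e x)) = kt red f := by
  unfold kt
  change Nat.card {χ : H → ℂ // IsIrrChar χ ∧ _} = Nat.card {χ : K → ℂ // IsIrrChar χ ∧ _}
  rw [card_transport e]
  refine Nat.card_congr (Equiv.subtypeEquivRight fun χ => ?_)
  refine and_congr_right fun hχ => ?_
  rw [centralValue_comp red e χ (irr_class hχ) f hf]

theorem kp_eval (p : ℕ) {H : Type} [Group H] [Finite H] (f : H → F) :
    (kp red p f).eval 1 = kt red f := by
  have : Fintype H := Fintype.ofFinite H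
  have h1 : kt red f = ((Irr H).filter fun χ => centralValue red χ f ≠ 0).card := by
    rw [← card_filter_eq]
    unfold kt
    refine Nat.card_congr (Equiv.subtypeEquivRight fun χ => and_congr_right fun _ => ?_)
    rw [true_and]
  rw [kp_sum, eval_finset_sum, h1, Finset.card_eq_sum_ones, Nat.cast_sum]
  refine Finset.sum_congr rfl fun χ _ => ?_
  rw [eval_pow, eval_X, one_pow, Nat.cast_one]

theorem kt_conjInv {G : Type} [Group G] [Finite G] {z : G → F} (hz : IsClassFun z) :
    ConjInv (fun H : Subgroup G => (kt red (rst z H) : ℤ)) := by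
  intro b H
  have h : kt red (rst z (conjSub b H)) = kt red (rst z H) := by
    rw [← kt_congr red (cj b H) (rst z (conjSub b H)) (rst_class hz _)]
    congr 1
    funext x
    unfold rst
    rw [cj_apply, hz]
  exact congrArg Nat.cast h

variable {p : ℕ}

/-- the alternating sum -/
def St (p : ℕ) {G : Type} [Group G] (z : G → F) : ℤ := tot p sgn (nz red PT z)

theorem Sz_eq {G : Type} [Group G] [Finite G] {z : G → F} (hz : IsClassFun z) :
    Sz red p z = (St red p z : ℚ) := by
  have h := card_mul_altSum' (p := p) (G := G) _ (kt_conjInv red hz)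
  have h0 : altSum p ⊥ (fun H : Subgroup G => (kt red (rst z H) : ℤ)) = St red p z := rfl
  rw [h0] at h
  have h2 : (wz red p z).eval 1 = (Nat.card G : ℚ) * (St red p z : ℚ) := by
    have h3 : ((Nat.card G : ℚ) * (St red p z : ℚ)) =
        (((Nat.card G : ℤ) * St red p z : ℤ) : ℚ) := by
      push_cast; rfl
    rw [h3, h]
    unfold wz
    rw [eval_finset_sum, Int.cast_sum]
    refine Finset.sum_congr rfl fun σ _ => ?_
    rw [eval_mul, eval_mul, kp_eval, eval_pow, eval_neg, eval_one, eval_natCast]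
    push_cast
    ring
  unfold Sz Pz
  rw [eval_smul, h2, smul_eq_mul, ← mul_assoc, inv_mul_cancel₀, one_mul]
  exact_mod_cast (Nat.card_pos (α := G)).ne'

theorem St_wr [hp : Fact p.Prime] [CharP F p] (hp2 : p ≠ 2) {G : Type} [Group G] [Finite G]
    {z : G → F} (hz : IsClassFun z) :
    2 * St red p (sq z : Wr G → F) = St red p z ^ 2 + 3 * St red p z := by
  have : Fintype G := Fintype.ofFinite G
  have h := Sz_wr (p := p) red hp2 hz
  rw [Sz_eq red hz, Sz_eq red (sq_class hz)] at h
  exact_mod_cast h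

end

section awc

variable {p : ℕ} [hp : Fact p.Prime] [IsAlgClosed F] [CharP F p]

/-- the alternating sum of the block `B` -/
def SB (p : ℕ) {G : Type} [Group G] (B : (G → F) → F) : ℤ := tot p sgn (nb red PT (rs B))

/-- the sum of the numbers of the real characters -/
def TB (p : ℕ) {G : Type} [Group G] (B : (G → F) → F) : ℤ :=
  tot p (fun _ => 1) (nb red (rl PT) (rs B))

theorem stepS (hp2 : p ≠ 2) {a : ℕ} {G : Type} [Group G] [Finite G] {z : G → F}
    (hz : IsClassFun z) (h : (2 : ℤ) ^ (a + 1) ∣ St red p z)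
    (hw : (2 : ℤ) ^ (a + 1) ∣ St red p (sq z : Wr G → F)) : (2 : ℤ) ^ (a + 2) ∣ St red p z := by
  have h1 := step (x := St red p z) (y := 0) (x' := St red p (sq z : Wr G → F)) (y' := 0)
    (St_wr red hp2 hz) (by norm_num) (a := a) (by rwa [sub_zero]) (by rwa [sub_zero])
  rwa [sub_zero] at h1

theorem S_even {G : Type} [Group G] [Finite G]
    (H : ∀ B : (G → F) → F, IsBlock B → RealBlock B → PosDef red p B → (2 : ℤ) ∣ TB red p B)
    {z : G → F} (hz : IsClassFun z) (hr : st z = z) (h0 : dzc red p G z = 0) :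
    (2 : ℤ) ∣ St red p z := by
  obtain ⟨S, hS⟩ := exists_pack red (G := G) p
  have h1 := tot_even red hS PT hz
    (fun B hB hB' hB0 => H B hB hB' (posDef_of red hz h0 hB0))
  have h2 := tot_mod red p PT_bar hz hr
  exact (Int.ModEq.dvd_iff h2).2 h1

theorem S_dvd (hp2 : p ≠ 2) : ∀ (a : ℕ) (G : Type) [Group G] [Finite G],
    (∀ j ≤ a, ∀ B : (WrN j G → F) → F, IsBlock B → RealBlock B → PosDef red p B →
      (2 : ℤ) ∣ TB red p B) →
    ∀ z : G → F, IsClassFun z → st z = z → dzc red p G z = 0 →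
      (2 : ℤ) ^ (a + 1) ∣ St red p z := by
  intro a
  induction a with
  | zero =>
    intro G _ _ H z hz hr h0
    rw [zero_add, pow_one]
    exact S_even red (H 0 le_rfl) hz hr h0
  | succ a ih =>
    intro G _ _ H z hz hr h0
    exact stepS red hp2 hz (ih G (fun j hj => H j (by omega)) z hz hr h0)
      (ih (Wr G) (fun j hj => H (j + 1) (by omega)) (sq z) (sq_class hz) (st_sq hr)
        (dzc_sq red hp2 hz h0))

theorem kt_le {H : Type} [Group H] [Finite H] (f : H → F) : kt red f ≤ Nat.card H := by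
  have h1 : Finite {φ : H → ℂ // IsIrrTrace φ} :=
    (Pool.Agent.Y914.NV.irr ℂ H).1.to_subtype
  refine le_trans ?_ (Pool.Agent.Q149.WB.card_irr_le ℂ H)
  unfold kt
  exact Nat.card_le_card_of_injective
    (fun χ : {χ : H → ℂ // IsIrreducibleCharacter χ ∧ True ∧
      centralValue red χ f ≠ 0} => (⟨χ.1, χ.2.1⟩ : {φ : H → ℂ // IsIrrTrace φ}))
    (fun φ ψ h => by
      apply Subtype.ext
      injection h)

theorem St_le {G : Type} [Group G] [Finite G] {z : G → F} (hz : IsClassFun z) :
    |St red p z| ≤ ((Nat.card {σ : Set (Subgroup G) // IsCh p (⊥ : Subgroup G) σ} *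
      Nat.card G : ℕ) : ℤ) := by
  have h1 := card_mul_altSum' (p := p) (G := G) _ (kt_conjInv red hz)
  have h0 : altSum p ⊥ (fun H : Subgroup G => (kt red (rst z H) : ℤ)) = St red p z := rfl
  rw [h0] at h1
  have hG : (0 : ℤ) < Nat.card G := by exact_mod_cast Nat.card_pos
  have h2 : |(Nat.card G : ℤ) * St red p z| ≤
      (Nat.card G : ℤ) * ((Nat.card {σ : Set (Subgroup G) // IsCh p (⊥ : Subgroup G) σ} *
        Nat.card G : ℕ) : ℤ) := by
    rw [h1]
    refine (Finset.abs_sum_le_sum_abs _ _).trans ?_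
    have h3 : ∀ σ ∈ (Finset.univ : Finset (Ch p G)),
        |(-1 : ℤ) ^ σ.1.ncard * ((Nat.card (chainStabilizer σ.1) : ℤ) *
          (kt red (rst z (chainStabilizer σ.1)) : ℤ))| ≤ (Nat.card G : ℤ) * Nat.card G := by
      intro σ _
      rw [abs_mul, abs_pow, abs_neg, abs_one, one_pow, one_mul, abs_mul, Nat.abs_cast,
        Nat.abs_cast]
      have h4 : Nat.card (chainStabilizer σ.1) ≤ Nat.card G := Subgroup.card_le_card_group _
      have h5 : kt red (rst z (chainStabilizer σ.1)) ≤ Nat.card G := (kt_le red _).trans h4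
      exact_mod_cast Nat.mul_le_mul h4 h5
    refine (Finset.sum_le_sum h3).trans ?_
    rw [Finset.sum_const, Finset.card_univ, ← Nat.card_eq_fintype_card, nsmul_eq_mul]
    have h6 : Nat.card (Ch p G) = Nat.card {σ : Set (Subgroup G) // IsCh p (⊥ : Subgroup G) σ} :=
      Nat.card_congr (Equiv.subtypeEquivRight fun σ => isCh_iff.symm)
    rw [h6]
    push_cast
    ring_nf
    exact le_rfl
  rw [abs_mul, abs_of_pos hG] at h2
  exact le_of_mul_le_mul_left h2 hG

theorem S_zero (hp2 : p ≠ 2) (G : Type) [Group G] [Finite G]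
    (H : ∀ j : ℕ, 2 ^ j ≤ Nat.card {σ : Set (Subgroup G) // IsCh p (⊥ : Subgroup G) σ} *
        Nat.card G → ∀ B : (WrN j G → F) → F, IsBlock B → RealBlock B → PosDef red p B →
      (2 : ℤ) ∣ TB red p B)
    (z : G → F) (hz : IsClassFun z) (hr : st z = z) (h0 : dzc red p G z = 0) :
    St red p z = 0 := by
  set M := Nat.card {σ : Set (Subgroup G) // IsCh p (⊥ : Subgroup G) σ} * Nat.card G with hM
  have hne : Nonempty {σ : Set (Subgroup G) // IsCh p (⊥ : Subgroup G) σ} :=
    ⟨⟨∅, ⟨by simp [IsChain], by simp, by simp⟩⟩⟩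
  have hM0 : 0 < M := Nat.mul_pos Nat.card_pos Nat.card_pos
  set a := Nat.log 2 M with ha
  have h3 : ∀ j ≤ a, 2 ^ j ≤ M := fun j hj =>
    (Nat.pow_le_pow_right (by norm_num) hj).trans (Nat.pow_log_le_self 2 hM0.ne')
  have h4 := S_dvd red hp2 a G (fun j hj => H j (h3 j hj)) z hz hr h0
  have h5 : M < 2 ^ (a + 1) := Nat.lt_pow_succ_log_self (by norm_num) _
  have h6 := St_le red (p := p) hz
  rw [← hM] at h6
  have h8 : |St red p z| < 2 ^ (a + 1) := h6.trans_lt (by exact_mod_cast h5)
  exact Int.eq_zero_of_abs_lt_dvd h4 h8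

theorem SB_zero (hp2 : p ≠ 2) (G : Type) [Group G] [Finite G]
    (H : ∀ j : ℕ, 2 ^ j ≤ Nat.card {σ : Set (Subgroup G) // IsCh p (⊥ : Subgroup G) σ} *
        Nat.card G → ∀ B : (WrN j G → F) → F, IsBlock B → RealBlock B → PosDef red p B →
      (2 : ℤ) ∣ TB red p B)
    (B : (G → F) → F) (hB : IsBlock B) (hB' : PosDef red p B) : SB red p B = 0 := by
  obtain ⟨S, hS⟩ := exists_pack red (G := G) p
  obtain ⟨z, hz, hr, hout, m, hm, -, h1⟩ := of_block red hp2 hS hB
  have h2 := h1 PT PT_bar sgn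
  have h3 : tot p sgn (nz red PT z) = 0 :=
    S_zero red hp2 G H z hz hr (dzc_zero red hS hB' hz hout)
  rw [h3] at h2
  exact (mul_eq_zero.1 h2.symm).resolve_left hm

theorem SB_mod (hp2 : p ≠ 2) (G : Type) [Group G] [Finite G] (B : (G → F) → F) (hB : IsBlock B)
    (hr : RealBlock B) : SB red p B ≡ TB red p B [ZMOD 2] := by
  obtain ⟨S, hS⟩ := exists_pack red (G := G) p
  obtain ⟨z, hz, hr', -, m, hm, hm1, h1⟩ := of_block red hp2 hS hB
  have h2 := h1 PT PT_bar sgn
  have h3 := h1 (rl PT) (rl_bar PT_bar) (fun _ => 1)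
  rw [hm1 hr, one_mul] at h2 h3
  unfold SB TB
  rw [← h2, ← h3]
  exact tot_mod red p PT_bar hz hr'

end awc

end Pool.Agent.Q149.DB
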